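import Mathlib
import Pool.Graph.R_seed8.TH277.HT.E
set_option autoImplicit false

/-! Elementary facts on the extension operator of the truncated paraboloid. -/

namespace Pool.Agent.H197.CT

open MeasureTheory Set Metric Complex
open scoped ENNReal NNReal
open Pool.Agent.TH277.HT (ch ch_norm ch_enorm ch_add ch_cont EE EE_le EE_meas cube_vol)

/-- Lebesgue measure on the cube `[-1,1]^n` -/
noncomputable def mu (n : ℕ) : Measure (Fin n → ℝ) := volume.restrict (Icc (-1 : Fin n → ℝ) 1)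

instance mu_fin (n : ℕ) : IsFiniteMeasure (mu n) := by
  refine ⟨?_⟩
  unfold mu
  rw [Measure.restrict_apply_univ, cube_vol]
  exact ENNReal.pow_lt_top (by norm_num)

theorem mu_ae {n : ℕ} {p : (Fin n → ℝ) → Prop} (h : ∀ ξ ∈ Icc (-1 : Fin n → ℝ) 1, p ξ) :
    ∀ᵐ ξ ∂(mu n), p ξ :=
  (ae_restrict_iff' measurableSet_Icc).2 (ae_of_all _ h)

/-- the phase -/
noncomputable def ph {n : ℕ} (y : (Fin n → ℝ) × ℝ) (ξ : Fin n → ℝ) : ℝ :=
  ∑ j, ξ j * y.1 j + (∑ j, ξ j ^ 2) * y.2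

theorem EE_def {n : ℕ} (f : (Fin n → ℝ) → ℂ) (y : (Fin n → ℝ) × ℝ) :
    EE f y = ∫ ξ, ch (ph y ξ) * f ξ ∂(mu n) := rfl

theorem EE_congr {n : ℕ} {f g : (Fin n → ℝ) → ℂ} (h : ∀ ξ ∈ Icc (-1 : Fin n → ℝ) 1, f ξ = g ξ) :
    EE f = EE g := by
  funext y
  rw [EE_def, EE_def]
  refine integral_congr_ae (mu_ae fun ξ hξ => ?_)
  simp only [h ξ hξ]

theorem ph_cont {n : ℕ} (y : (Fin n → ℝ) × ℝ) : Continuous (ph y) := by
  unfold ph; fun_prop

theorem ph_cont' {n : ℕ} (ξ : Fin n → ℝ) : Continuous fun y => ph (n := n) y ξ := by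
  unfold ph; fun_prop

theorem ker_int {n : ℕ} {g : (Fin n → ℝ) → ℂ} (hg : Integrable g (mu n))
    (y : (Fin n → ℝ) × ℝ) : Integrable (fun ξ => ch (ph y ξ) * g ξ) (mu n) := by
  refine hg.bdd_mul (c := 1) ?_ ?_
  · exact (ch_cont.comp (ph_cont y)).aestronglyMeasurable
  · exact Filter.Eventually.of_forall fun x => (ch_norm _).le

theorem EE_norm_le {n : ℕ} (g : (Fin n → ℝ) → ℂ) (y : (Fin n → ℝ) × ℝ) :
    ‖EE g y‖ ≤ ∫ ξ, ‖g ξ‖ ∂(mu n) := by
  rw [EE_def]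
  refine (norm_integral_le_integral_norm _).trans (le_of_eq ?_)
  refine integral_congr_ae (Filter.Eventually.of_forall fun x => ?_)
  simp only [norm_mul]
  rw [ch_norm, one_mul]

theorem EE_continuous {n : ℕ} {g : (Fin n → ℝ) → ℂ} (hg : Integrable g (mu n)) :
    Continuous (EE g) := by
  have h : EE g = fun y => ∫ ξ, ch (ph y ξ) * g ξ ∂(mu n) := rfl
  rw [h]
  refine continuous_of_dominated (bound := fun x => ‖g x‖) ?_ ?_ hg.norm ?_
  · exact fun y => (ker_int hg y).aestronglyMeasurable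
  · intro y
    refine Filter.Eventually.of_forall fun x => ?_
    rw [norm_mul, ch_norm, one_mul]
  · refine Filter.Eventually.of_forall fun x => ?_
    exact (ch_cont.comp (ph_cont' x)).mul continuous_const

theorem EE_add {n : ℕ} {f g : (Fin n → ℝ) → ℂ} (hf : Integrable f (mu n))
    (hg : Integrable g (mu n)) (y : (Fin n → ℝ) × ℝ) :
    EE (fun x => f x + g x) y = EE f y + EE g y := by
  rw [EE_def, EE_def, EE_def, ← integral_add (ker_int hf y) (ker_int hg y)]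
  congr 1
  ext x
  ring

theorem EE_smul {n : ℕ} (g : (Fin n → ℝ) → ℂ) (c : ℂ) (y : (Fin n → ℝ) × ℝ) :
    EE (fun x => c * g x) y = c * EE g y := by
  rw [EE_def, EE_def, ← integral_const_mul]
  congr 1
  ext x
  ring

theorem EE_sum {n : ℕ} {ι : Type} (s : Finset ι) {f : ι → (Fin n → ℝ) → ℂ}
    (hf : ∀ i ∈ s, Integrable (f i) (mu n)) (y : (Fin n → ℝ) × ℝ) :
    EE (fun x => ∑ i ∈ s, f i x) y = ∑ i ∈ s, EE (f i) y := by
  simp_rw [EE_def]
  rw [← integral_finset_sum s fun i hi => ker_int (hf i hi) y]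
  congr 1
  ext x
  rw [Finset.mul_sum]

theorem ch_sub_le (s t : ℝ) : ‖ch s - ch t‖ ≤ 2 * Real.pi * |s - t| := by
  have e1 : ch s - ch t = ch t * (Complex.exp (I * ((2 * Real.pi * (s - t) : ℝ) : ℂ)) - 1) := by
    have h2 : Complex.exp (I * ((2 * Real.pi * (s - t) : ℝ) : ℂ)) = ch (s - t) := by
      unfold ch
      congr 1
      push_cast; ring
    rw [h2, mul_sub, ← ch_add, mul_one]
    congr 2
    ring
  rw [e1, norm_mul, ch_norm, one_mul]
  have e3 := Real.norm_exp_I_mul_ofReal_sub_one_le (x := 2 * Real.pi * (s - t))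
  rw [Real.norm_eq_abs, abs_mul, abs_of_pos (by positivity : 0 < 2 * Real.pi)] at e3
  exact e3

theorem ph_sub_le {n : ℕ} (y y' : (Fin n → ℝ) × ℝ) {ξ : Fin n → ℝ}
    (hξ : ξ ∈ Icc (-1 : Fin n → ℝ) 1) : |ph y ξ - ph y' ξ| ≤ 2 * n * ‖y - y'‖ := by
  have h0 : ∀ j, |ξ j| ≤ 1 := fun j => abs_le.2 ⟨hξ.1 j, hξ.2 j⟩
  have h1 : ph y ξ - ph y' ξ = ∑ j, (ξ j * (y.1 j - y'.1 j) + ξ j ^ 2 * (y.2 - y'.2)) := by
    unfold ph
    rw [Finset.sum_add_distrib, ← Finset.sum_mul]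
    simp only [mul_sub, Finset.sum_sub_distrib]
    ring
  rw [h1]
  refine (Finset.abs_sum_le_sum_abs _ _).trans ?_
  calc ∑ j, |ξ j * (y.1 j - y'.1 j) + ξ j ^ 2 * (y.2 - y'.2)| ≤ ∑ _j : Fin n, 2 * ‖y - y'‖ := by
        refine Finset.sum_le_sum fun j _ => ?_
        have h2 : |y.1 j - y'.1 j| ≤ ‖y - y'‖ := by
          have h3 : ‖(y - y').1 j‖ ≤ ‖(y - y').1‖ := norm_le_pi_norm _ _
          have h4 : ‖(y - y').1‖ ≤ ‖y - y'‖ := norm_fst_le _
          exact (h3.trans h4)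
        have h5 : |y.2 - y'.2| ≤ ‖y - y'‖ := norm_snd_le (y - y')
        have h6 : |ξ j ^ 2| ≤ 1 := by
          rw [abs_pow]
          exact pow_le_one₀ (abs_nonneg _) (h0 j)
        calc |ξ j * (y.1 j - y'.1 j) + ξ j ^ 2 * (y.2 - y'.2)|
            ≤ |ξ j| * |y.1 j - y'.1 j| + |ξ j ^ 2| * |y.2 - y'.2| := by
              refine (abs_add_le _ _).trans ?_
              rw [abs_mul, abs_mul]
          _ ≤ 1 * ‖y - y'‖ + 1 * ‖y - y'‖ := by
              gcongr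
              exact h0 j
          _ = 2 * ‖y - y'‖ := by ring
    _ = 2 * n * ‖y - y'‖ := by
        rw [Finset.sum_const, Finset.card_univ, Fintype.card_fin, nsmul_eq_mul]
        ring

theorem EE_lip {n : ℕ} {g : (Fin n → ℝ) → ℂ} (hg : Integrable g (mu n))
    (y y' : (Fin n → ℝ) × ℝ) :
    ‖EE g y - EE g y'‖ ≤ (4 * Real.pi * n * ∫ x, ‖g x‖ ∂(mu n)) * ‖y - y'‖ := by
  rw [EE_def, EE_def, ← integral_sub (ker_int hg y) (ker_int hg y'),
    show (4 * Real.pi * n * ∫ x, ‖g x‖ ∂(mu n)) * ‖y - y'‖ =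
      ∫ x, (4 * Real.pi * n * ‖y - y'‖) * ‖g x‖ ∂(mu n) by rw [integral_const_mul]; ring]
  refine norm_integral_le_of_norm_le (hg.norm.const_mul _) (mu_ae fun ξ hξ => ?_)
  rw [← sub_mul, norm_mul]
  refine mul_le_mul_of_nonneg_right ?_ (norm_nonneg _)
  refine (ch_sub_le _ _).trans ?_
  have h := ph_sub_le y y' hξ
  calc 2 * Real.pi * |ph y ξ - ph y' ξ| ≤ 2 * Real.pi * (2 * n * ‖y - y'‖) := by gcongr
    _ = _ := by ring

theorem int_of_bdd {n : ℕ} {g : (Fin n → ℝ) → ℂ} (hg : Measurable g) {M : ℝ}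
    (hM : ∀ x, ‖g x‖ ≤ M) : Integrable g (mu n) :=
  Integrable.of_bound hg.aestronglyMeasurable M (Filter.Eventually.of_forall hM)

theorem int_norm_le {n : ℕ} {g : (Fin n → ℝ) → ℂ} (hg : Measurable g) {M : ℝ}
    (hM : ∀ x, ‖g x‖ ≤ M) : ∫ x, ‖g x‖ ∂(mu n) ≤ M * (mu n).real univ := by
  calc ∫ x, ‖g x‖ ∂(mu n) ≤ ∫ _x, M ∂(mu n) :=
        integral_mono (int_of_bdd hg hM).norm (integrable_const _) hM
    _ = _ := by rw [integral_const, smul_eq_mul, mul_comm]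

theorem mu_real (n : ℕ) : (mu n).real univ = 2 ^ n := by
  unfold mu
  rw [measureReal_def, Measure.restrict_apply_univ, cube_vol]
  simp

end Pool.Agent.H197.CT
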