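import Mathlib
import Pool.Agent.H197.CT.Base
set_option autoImplicit false

/-! Approximation by functions all of whose products with rough functions of one coordinate satisfy
the extension estimate. -/

namespace Pool.Agent.H197.CT

open MeasureTheory Set Metric Complex Algebra
open scoped ENNReal NNReal
open Pool.Agent.TH277.HT (ch ch_norm ch_enorm ch_add ch_cont EE EE_le EE_meas cube_vol Sch Adm base)

/-- The products of `P` with bounded measurable functions of the coordinate `i` satisfy the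
extension estimate. -/
def Good (n : ℕ) (i : Fin n) (P : (Fin n → ℝ) → ℂ) : Prop :=
  Continuous P ∧ ∀ q : ℝ, 2 * ((n : ℝ) + 1) / n < q → ∃ K : ℝ≥0, ∀ F : ℝ → ℂ, Measurable F →
    (∀ t, ‖F t‖ ≤ 1) → eLpNorm (EE fun ξ => P ξ * F (ξ i)) (ENNReal.ofReal q) volume ≤ K

theorem int_cont {n : ℕ} (i : Fin n) {P : (Fin n → ℝ) → ℂ} (hP : Continuous P) {F : ℝ → ℂ}
    (hF : Measurable F) (hb : ∀ t, ‖F t‖ ≤ 1) : Integrable (fun ξ => P ξ * F (ξ i)) (mu n) := by
  have h1 : Integrable P (mu n) := by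
    unfold mu
    exact hP.continuousOn.integrableOn_compact isCompact_Icc
  have h2 : Measurable fun ξ : Fin n → ℝ => F (ξ i) := hF.comp (measurable_pi_apply i)
  have h3 := h1.bdd_mul (c := 1) (f := fun ξ => F (ξ i)) h2.aestronglyMeasurable
    (Filter.Eventually.of_forall fun x => hb _)
  refine h3.congr (Filter.Eventually.of_forall fun x => ?_)
  simp only
  ring

theorem Good.add {n : ℕ} {i : Fin n} {P Q : (Fin n → ℝ) → ℂ} (hP : Good n i P)
    (hQ : Good n i Q) : Good n i fun ξ => P ξ + Q ξ := by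
  refine ⟨hP.1.add hQ.1, fun q hq => ?_⟩
  obtain ⟨K1, h1⟩ := hP.2 q hq
  obtain ⟨K2, h2⟩ := hQ.2 q hq
  refine ⟨K1 + K2, fun F hF hb => ?_⟩
  have hn : (n : ℝ) ≠ 0 := by
    have : 0 < n := i.pos
    positivity
  have hn0 : (0 : ℝ) < n := by
    have : 0 < n := i.pos
    positivity
  have hq1 : 1 ≤ q := by
    have h3 : 2 * ((n : ℝ) + 1) / n = 2 + 2 / n := by field_simp
    have : 0 < 2 / (n : ℝ) := by positivity
    linarith
  have hi1 := int_cont i hP.1 hF hb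
  have hi2 := int_cont i hQ.1 hF hb
  have h3 : (EE fun ξ => (P ξ + Q ξ) * F (ξ i)) =
      (EE fun ξ => P ξ * F (ξ i)) + (EE fun ξ => Q ξ * F (ξ i)) := by
    funext y
    rw [Pi.add_apply, ← EE_add hi1 hi2]
    congr 1
    ext ξ
    ring
  rw [h3]
  refine (eLpNorm_add_le (EE_continuous hi1).aestronglyMeasurable
    (EE_continuous hi2).aestronglyMeasurable ?_).trans ?_
  · rw [← ENNReal.ofReal_one]
    exact ENNReal.ofReal_le_ofReal hq1
  · rw [ENNReal.coe_add]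
    exact add_le_add (h1 F hF hb) (h2 F hF hb)

theorem Good.smul {n : ℕ} {i : Fin n} {P : (Fin n → ℝ) → ℂ} (hP : Good n i P) (c : ℂ) :
    Good n i fun ξ => c * P ξ := by
  refine ⟨continuous_const.mul hP.1, fun q hq => ?_⟩
  obtain ⟨K1, h1⟩ := hP.2 q hq
  refine ⟨‖c‖₊ * K1, fun F hF hb => ?_⟩
  have h3 : (EE fun ξ => (c * P ξ) * F (ξ i)) = c • (EE fun ξ => P ξ * F (ξ i)) := by
    funext y
    rw [Pi.smul_apply, smul_eq_mul, ← EE_smul]
    congr 1
    ext ξ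
    ring
  rw [h3, eLpNorm_const_smul, ENNReal.coe_mul]
  gcongr
  · exact le_of_eq rfl
  · exact h1 F hF hb

theorem Good.zero {n : ℕ} {i : Fin n} : Good n i fun _ => 0 := by
  refine ⟨continuous_const, fun q hq => ⟨0, fun F hF hb => ?_⟩⟩
  have h3 : (EE fun ξ : Fin n → ℝ => (0 : ℂ) * F (ξ i)) = fun _ => 0 := by
    funext y
    rw [EE_def]
    simp
  rw [h3]
  simp

/-- cutoff in one variable -/
noncomputable def tz (κ t : ℝ) : ℝ := max 0 (min 1 ((1 - |t|) * (2 / κ) - 1))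

theorem tz_cont (κ : ℝ) : Continuous (tz κ) := by unfold tz; fun_prop

theorem tz_nonneg (κ t : ℝ) : 0 ≤ tz κ t := le_max_left _ _

theorem tz_le (κ t : ℝ) : tz κ t ≤ 1 := max_le zero_le_one (min_le_left _ _)

theorem tz_one {κ : ℝ} (hκ : 0 < κ) {t : ℝ} (h : |t| ≤ 1 - κ) : tz κ t = 1 := by
  unfold tz
  have h1 : 1 ≤ (1 - |t|) * (2 / κ) - 1 := by
    have h2 : κ * (2 / κ) ≤ (1 - |t|) * (2 / κ) :=
      mul_le_mul_of_nonneg_right (by linarith) (by positivity)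
    have h3 : κ * (2 / κ) = 2 := by field_simp
    linarith
  rw [min_eq_left h1]
  exact max_eq_right zero_le_one

theorem tz_zero {κ : ℝ} (hκ : 0 < κ) {t : ℝ} (h : 1 - κ / 2 ≤ |t|) : tz κ t = 0 := by
  unfold tz
  apply max_eq_left
  refine (min_le_right _ _).trans ?_
  have h2 : (1 - |t|) * (2 / κ) ≤ (κ / 2) * (2 / κ) :=
    mul_le_mul_of_nonneg_right (by linarith) (by positivity)
  have h3 : (κ / 2) * (2 / κ) = 1 := by field_simp
  linarith

/-- cutoff -/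
noncomputable def cut {n : ℕ} (κ : ℝ) (ξ : Fin n → ℝ) : ℝ := ∏ j, tz κ (ξ j)

theorem cut_cont {n : ℕ} (κ : ℝ) : Continuous (cut (n := n) κ) := by
  unfold cut
  exact continuous_finsetProd _ fun j _ => (tz_cont κ).comp (continuous_apply j)

theorem cut_nonneg {n : ℕ} (κ : ℝ) (ξ : Fin n → ℝ) : 0 ≤ cut κ ξ :=
  Finset.prod_nonneg fun _ _ => tz_nonneg _ _

theorem cut_le {n : ℕ} (κ : ℝ) (ξ : Fin n → ℝ) : cut κ ξ ≤ 1 :=
  Finset.prod_le_one (fun _ _ => tz_nonneg _ _) fun _ _ => tz_le _ _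

theorem cut_one {n : ℕ} {κ : ℝ} (hκ : 0 < κ) {ξ : Fin n → ℝ} (h : ∀ j, |ξ j| ≤ 1 - κ) :
    cut κ ξ = 1 := Finset.prod_eq_one fun j _ => tz_one hκ (h j)

theorem cut_zero {n : ℕ} {κ : ℝ} (hκ : 0 < κ) {ξ : Fin n → ℝ} (h : ∃ j, 1 - κ / 2 ≤ |ξ j|) :
    cut κ ξ = 0 := by
  obtain ⟨j, hj⟩ := h
  exact Finset.prod_eq_zero (Finset.mem_univ j) (tz_zero hκ hj)

/-- exponentials on the whole space -/
noncomputable def ex0 {n : ℕ} (η : Fin n → ℝ) (ξ : Fin n → ℝ) : ℂ :=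
  Complex.exp ((∑ j, η j * ξ j : ℝ) * I)

theorem ex0_cont {n : ℕ} (η : Fin n → ℝ) : Continuous (ex0 η) := by
  unfold ex0; fun_prop

theorem Sch_ex {n : ℕ} (κ : ℝ) (η : Fin n → ℝ) :
    Sch n (fun ξ => ex0 η ξ * ((cut κ ξ : ℝ) : ℂ)) := by
  refine ⟨ℂ, inferInstance, inferInstance, inferInstance,
    ContinuousMultilinearMap.mkPiAlgebra ℂ (Fin n) ℂ,
    fun j u => Complex.exp ((η j * u : ℝ) * I) * ((tz κ u : ℝ) : ℂ), ?_, ?_, ?_⟩
  · exact le_of_eq ContinuousMultilinearMap.norm_mkPiAlgebra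
  · intro j
    refine ⟨?_, fun u => ?_⟩
    · exact (((by fun_prop : Continuous fun u : ℝ => Complex.exp ((η j * u : ℝ) * I))).mul
        (Complex.continuous_ofReal.comp (tz_cont κ))).stronglyMeasurable
    · rw [norm_mul, Complex.norm_exp_ofReal_mul_I, one_mul, Complex.norm_real, Real.norm_eq_abs,
        abs_of_nonneg (tz_nonneg _ _)]
      exact tz_le _ _
  · intro ξ
    rw [ContinuousMultilinearMap.mkPiAlgebra_apply, Finset.prod_mul_distrib, ← Complex.exp_sum]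
    unfold ex0 cut
    push_cast
    rw [Finset.sum_mul]

theorem Good.ex {n : ℕ} (hn : 2 ≤ n) (i : Fin n) (κ : ℝ) (η : Fin n → ℝ) :
    Good n i (fun ξ => ex0 η ξ * ((cut κ ξ : ℝ) : ℂ)) := by
  refine ⟨(ex0_cont η).mul (Complex.continuous_ofReal.comp (cut_cont κ)), fun q hq => ?_⟩
  obtain ⟨C, hC⟩ := base n hn q hq
  have hn0 : (0 : ℝ) < n := by
    have : 0 < n := i.pos
    positivity
  have hq0 : 0 < q := by
    have : 0 < 2 * ((n : ℝ) + 1) / n := by positivity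
    linarith
  refine ⟨C ^ (1 / q), fun F hF hb => ?_⟩
  have h1 := hC _ ((Sch_ex κ η).mul_one i F hF hb)
  rw [eLpNorm_eq_lintegral_rpow_enorm_toReal (by simpa using hq0) (by simp),
    ENNReal.toReal_ofReal hq0.le]
  refine (ENNReal.rpow_le_rpow h1 (by positivity)).trans ?_
  rw [← ENNReal.coe_rpow_of_nonneg _ (by positivity)]

/-- the cube -/
abbrev Q (n : ℕ) : Set (Fin n → ℝ) := Icc (-1 : Fin n → ℝ) 1

instance (n : ℕ) : CompactSpace (Q n) := isCompact_iff_compactSpace.1 isCompact_Icc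

variable {n : ℕ}

/-- exponentials on the cube -/
noncomputable def ex (η : Fin n → ℝ) : C(Q n, ℂ) :=
  ⟨fun x => ex0 η x, (ex0_cont η).comp continuous_subtype_val⟩

theorem ex_apply (η : Fin n → ℝ) (x : Q n) :
    ex η x = Complex.exp ((∑ j, η j * (x : Fin n → ℝ) j : ℝ) * I) := rfl

/-- star algebra of trigonometric polynomials -/
noncomputable def TA (n : ℕ) : StarSubalgebra ℂ C(Q n, ℂ) where
  toSubalgebra := Algebra.adjoin ℂ (range (ex (n := n)))
  star_mem' := by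
    change Algebra.adjoin ℂ (range (ex (n := n))) ≤ star (Algebra.adjoin ℂ (range (ex (n := n))))
    refine adjoin_le ?_
    rintro - ⟨η, rfl⟩
    refine subset_adjoin ⟨-η, ?_⟩
    ext x
    rw [ContinuousMap.star_apply, ex_apply, ex_apply, ← starRingEnd_apply, ← Complex.exp_conj,
      map_mul, Complex.conj_ofReal, Complex.conj_I]
    congr 1
    simp only [Pi.neg_apply, neg_mul, Finset.sum_neg_distrib]
    push_cast; ring

theorem TA_coe : Subalgebra.toSubmodule (TA n).toSubalgebra =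
    Submodule.span ℂ (range (ex (n := n))) := by
  apply adjoin_eq_span_of_subset
  refine Subset.trans ?_ Submodule.subset_span
  intro x hx
  refine Submonoid.closure_induction (fun _ => id) ⟨0, ?_⟩ ?_ hx
  · ext1 z; rw [ex_apply]; simp
  · rintro - - - - ⟨m, rfl⟩ ⟨k, rfl⟩
    refine ⟨m + k, ?_⟩
    ext1 z
    rw [ContinuousMap.mul_apply, ex_apply, ex_apply, ex_apply, ← Complex.exp_add]
    congr 1
    simp only [Pi.add_apply, add_mul, Finset.sum_add_distrib]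
    push_cast; ring

theorem TA_sep : (TA n).SeparatesPoints := by
  intro x y hxy
  obtain ⟨j, hj⟩ : ∃ j, (x : Fin n → ℝ) j ≠ (y : Fin n → ℝ) j := by
    by_contra h
    push Not at h
    exact hxy (Subtype.ext (funext h))
  set s : ℝ := (x : Fin n → ℝ) j - (y : Fin n → ℝ) j with hs
  have hs0 : s ≠ 0 := sub_ne_zero.2 hj
  classical
  refine ⟨_, ⟨ex (Pi.single j s⁻¹), subset_adjoin ⟨_, rfl⟩, rfl⟩, ?_⟩
  dsimp only
  rw [ex_apply, ex_apply]
  intro h
  have hsum : ∀ z : Fin n → ℝ, ∑ k, (Pi.single j s⁻¹ : Fin n → ℝ) k * z k = s⁻¹ * z j := by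
    intro z
    rw [Finset.sum_eq_single j]
    · rw [Pi.single_eq_same]
    · intro b _ hb
      rw [Pi.single_eq_of_ne hb, zero_mul]
    · simp
  rw [hsum, hsum] at h
  have h1 : s⁻¹ * (x : Fin n → ℝ) j = s⁻¹ * (y : Fin n → ℝ) j + 1 := by
    have : s⁻¹ * s = 1 := inv_mul_cancel₀ hs0
    rw [hs] at this
    rw [hs]
    linarith
  rw [h1] at h
  have h2 : ((s⁻¹ * (y : Fin n → ℝ) j + 1 : ℝ) : ℂ) * I =
      ((s⁻¹ * (y : Fin n → ℝ) j : ℝ) : ℂ) * I + I := by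
    push_cast; ring
  rw [h2, Complex.exp_add] at h
  have h3 : Complex.exp I = 1 := by
    have h4 := Complex.exp_ne_zero (((s⁻¹ * (y : Fin n → ℝ) j : ℝ) : ℂ) * I)
    have h5 : Complex.exp (((s⁻¹ * (y : Fin n → ℝ) j : ℝ) : ℂ) * I) * Complex.exp I =
        Complex.exp (((s⁻¹ * (y : Fin n → ℝ) j : ℝ) : ℂ) * I) * 1 := by rw [mul_one]; exact h
    exact mul_left_cancel₀ h4 h5
  rw [Complex.exp_eq_one_iff] at h3
  obtain ⟨k, hk⟩ := h3
  have h6 := congrArg Complex.im hk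
  simp at h6
  have h7 : (1 : ℝ) = (k : ℝ) * (2 * Real.pi) := h6
  rcases le_or_gt k 0 with hk0 | hk0
  · have : (k : ℝ) ≤ 0 := by exact_mod_cast hk0
    nlinarith [Real.pi_pos]
  · have : (1 : ℝ) ≤ k := by exact_mod_cast hk0
    nlinarith [Real.pi_gt_three]

theorem good_dense (hn : 2 ≤ n) (i : Fin n) (κ : ℝ) (ψ : C(Q n, ℂ)) (δ : ℝ) (hδ : 0 < δ) :
    ∃ P : (Fin n → ℝ) → ℂ, Good n i (fun ξ => P ξ * ((cut κ ξ : ℝ) : ℂ)) ∧
      ∀ x : Q n, ‖ψ x - P x‖ ≤ δ := by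
  have h1 : (TA n).topologicalClosure = ⊤ :=
    ContinuousMap.starSubalgebra_topologicalClosure_eq_top_of_separatesPoints (TA n) TA_sep
  have h2 : (Submodule.span ℂ (range (ex (n := n)))).topologicalClosure = ⊤ := by
    rw [← TA_coe]
    exact congr_arg (Subalgebra.toSubmodule <| StarSubalgebra.toSubalgebra ·) h1
  have h3 : ψ ∈ closure (Submodule.span ℂ (range (ex (n := n))) :
      Set C(Q n, ℂ)) := by
    rw [← Submodule.topologicalClosure_coe, h2]; trivial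
  rw [Metric.mem_closure_iff] at h3
  obtain ⟨t, ht, hd⟩ := h3 δ hδ
  have key : ∀ t ∈ Submodule.span ℂ (range (ex (n := n))),
      ∃ P : (Fin n → ℝ) → ℂ, Good n i (fun ξ => P ξ * ((cut κ ξ : ℝ) : ℂ)) ∧
        ∀ x : Q n, t x = P x := by
    intro t ht
    refine Submodule.span_induction ?_ ?_ ?_ ?_ ht
    · rintro - ⟨η, rfl⟩
      exact ⟨ex0 η, Good.ex hn i κ η, fun x => rfl⟩
    · refine ⟨fun _ => 0, ?_, fun x => rfl⟩
      simp only [zero_mul]
      exact Good.zero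
    · rintro a b - - ⟨P, hP, hP'⟩ ⟨P2, hP2, hP2'⟩
      refine ⟨fun ξ => P ξ + P2 ξ, ?_, fun x => ?_⟩
      · simp only [add_mul]
        exact hP.add hP2
      · rw [ContinuousMap.add_apply, hP', hP2']
    · rintro c a - ⟨P, hP, hP'⟩
      refine ⟨fun ξ => c * P ξ, ?_, fun x => ?_⟩
      · simp only [mul_assoc]
        exact hP.smul c
      · rw [ContinuousMap.smul_apply, hP', smul_eq_mul]
  obtain ⟨P, hP, hP'⟩ := key t ht
  refine ⟨P, hP, fun x => ?_⟩
  rw [← hP' x, ← dist_eq_norm]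
  exact (ContinuousMap.dist_apply_le_dist x).trans hd.le

/-- a smaller cube -/
def Qk (n : ℕ) (κ : ℝ) : Set (Fin n → ℝ) := {ξ | ∀ j, |ξ j| ≤ 1 - κ}

theorem Qk_meas (n : ℕ) (κ : ℝ) : MeasurableSet (Qk n κ) := by
  have h : Qk n κ = ⋂ j, {ξ : Fin n → ℝ | |ξ j| ≤ 1 - κ} := by
    ext ξ; simp [Qk]
  rw [h]
  exact MeasurableSet.iInter fun j => measurableSet_le (by fun_prop) measurable_const

theorem approx (hn : 2 ≤ n) (i : Fin n) {κ : ℝ} (hκ : 0 < κ) (φ : (Fin n → ℝ) → ℂ)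
    (hφ : Measurable φ) (M : ℝ)
    (hM : 0 < M) (hb : ∀ x, ‖φ x‖ ≤ M) (ρ : ℝ) (hρ : 0 < ρ) (ε : ℝ) (hε : 0 < ε) :
    ∃ P : (Fin n → ℝ) → ℂ, Good n i P ∧ (∀ x, ‖P x‖ ≤ 2 * M) ∧
      (∀ x : Fin n → ℝ, (∃ j, 1 - κ / 2 ≤ |x j|) → P x = 0) ∧
      mu n {x | x ∈ Qk n κ ∧ ρ < ‖φ x - P x‖} ≤ ENNReal.ofReal ε := by
  have hint := int_of_bdd hφ hb
  obtain ⟨ψ, hψ, hψi⟩ := hint.exists_boundedContinuous_integral_sub_le
    (show 0 < ε * (ρ / 4) by positivity)
  set ψ' : C(Q n, ℂ) := ⟨fun x => ((M / max M ‖ψ x‖ : ℝ) : ℂ) * ψ x, by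
    have h1 : Continuous fun x : Q n => M / max M ‖ψ x‖ :=
      continuous_const.div (by fun_prop) fun x => (lt_of_lt_of_le hM (le_max_left _ _)).ne'
    exact (Complex.continuous_ofReal.comp h1).mul (by fun_prop)⟩ with hψ'
  have hap : ∀ x, ψ' x = ((M / max M ‖ψ x‖ : ℝ) : ℂ) * ψ x := fun x => rfl
  have hb' : ∀ x, ‖ψ' x‖ ≤ M := by
    intro x
    have hm : 0 < max M ‖ψ x‖ := lt_of_lt_of_le hM (le_max_left _ _)
    rw [hap, norm_mul, Complex.norm_real, Real.norm_eq_abs, abs_of_nonneg (by positivity),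
      div_mul_eq_mul_div, div_le_iff₀ hm]
    exact mul_le_mul_of_nonneg_left (le_max_right _ _) hM.le
  have hdiff : ∀ x : Q n, ‖φ x - ψ' x‖ ≤ 2 * ‖φ x - ψ x‖ := by
    intro x
    have hm : 0 < max M ‖ψ x‖ := lt_of_lt_of_le hM (le_max_left _ _)
    have h1 : ‖ψ x - ψ' x‖ ≤ ‖φ x - ψ x‖ := by
      have h2 : ψ x - ψ' x = ((1 - M / max M ‖ψ x‖ : ℝ) : ℂ) * ψ x := by
        rw [hap]; push_cast; ring
      rw [h2, norm_mul, Complex.norm_real, Real.norm_eq_abs]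
      rcases le_total ‖ψ x‖ M with h | h
      · rw [max_eq_left h, div_self hM.ne', sub_self, abs_zero, zero_mul]
        exact norm_nonneg _
      · rw [max_eq_right h]
        have hp : 0 < ‖ψ x‖ := lt_of_lt_of_le hM h
        rw [abs_of_nonneg (by rw [sub_nonneg, div_le_one hp]; exact h), sub_mul, one_mul,
          div_mul_cancel₀ _ hp.ne']
        have := norm_sub_norm_le (ψ x) (φ x)
        rw [norm_sub_rev] at this
        linarith [hb x]
    calc ‖φ x - ψ' x‖ = ‖(φ x - ψ x) + (ψ x - ψ' x)‖ := by congr 1; ring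
      _ ≤ ‖φ x - ψ x‖ + ‖ψ x - ψ' x‖ := norm_add_le _ _
      _ ≤ _ := by linarith
  obtain ⟨P, hP, ht⟩ := good_dense hn i κ ψ' (min M (ρ / 2)) (lt_min hM (by positivity))
  refine ⟨fun ξ => P ξ * ((cut κ ξ : ℝ) : ℂ), hP, fun x => ?_, fun x hx => ?_, ?_⟩
  · by_cases hx : x ∈ Q n
    · have h1 := (ht ⟨x, hx⟩).trans (min_le_left _ _)
      have h2 := norm_sub_norm_le (P x) (ψ' ⟨x, hx⟩)
      rw [norm_sub_rev] at h2
      have h3 := hb' ⟨x, hx⟩
      simp only at h1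
      rw [norm_mul, Complex.norm_real, Real.norm_eq_abs, abs_of_nonneg (cut_nonneg _ _)]
      calc ‖P x‖ * cut κ x ≤ ‖P x‖ * 1 := by gcongr; exact cut_le _ _
        _ ≤ 2 * M := by linarith
    · have h1 : ∃ j, 1 - κ / 2 ≤ |x j| := by
        by_contra hc
        push Not at hc
        apply hx
        have h2 : ∀ j, |x j| ≤ 1 := fun j => by
          have := hc j
          linarith
        exact ⟨fun j => (abs_le.1 (h2 j)).1, fun j => (abs_le.1 (h2 j)).2⟩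
      simp only
      rw [cut_zero hκ h1]
      simp
      positivity
  · simp only
    rw [cut_zero hκ hx]
    simp
  · have hsub : ∀ᵐ x ∂(mu n), x ∈ {x | x ∈ Qk n κ ∧ ρ < ‖φ x - P x * ((cut κ x : ℝ) : ℂ)‖} →
        x ∈ {x | ρ / 4 ≤ ‖φ x - ψ x‖} := by
      refine mu_ae fun x hxQ hx => ?_
      rw [mem_ofPred_eq] at hx ⊢
      obtain ⟨hxk, hx⟩ := hx
      rw [cut_one hκ hxk, Complex.ofReal_one, mul_one] at hx
      have h1 := (ht ⟨x, hxQ⟩).trans (min_le_right _ _)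
      simp only at h1
      have h2 : ‖φ x - P x‖ ≤ ‖φ x - ψ' ⟨x, hxQ⟩‖ + ‖ψ' ⟨x, hxQ⟩ - P x‖ := by
        calc _ = ‖(φ x - ψ' ⟨x, hxQ⟩) + (ψ' ⟨x, hxQ⟩ - P x)‖ := by congr 1; ring
          _ ≤ _ := norm_add_le _ _
      have h3 := hdiff ⟨x, hxQ⟩
      simp only at h3
      linarith
    have hmm : mu n {x | x ∈ Qk n κ ∧ ρ < ‖φ x - P x * ((cut κ x : ℝ) : ℂ)‖} ≤
        mu n {x | ρ / 4 ≤ ‖φ x - ψ x‖} :=
      measure_mono_ae hsub
    refine hmm.trans ?_
    have h3 := mul_meas_ge_le_integral_of_nonneg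
      (μ := mu n) (f := fun x => ‖φ x - ψ x‖)
      (Filter.Eventually.of_forall fun x => norm_nonneg _) ((hint.sub hψi).norm) (ρ / 4)
    rw [← ENNReal.ofReal_toReal (measure_ne_top (mu n) {x | ρ / 4 ≤ ‖φ x - ψ x‖})]
    apply ENNReal.ofReal_le_ofReal
    have h4 : ρ / 4 * (mu n).real {x | ρ / 4 ≤ ‖φ x - ψ x‖} ≤ ρ / 4 * ε := by
      calc _ ≤ _ := h3
        _ ≤ _ := hψ
        _ = _ := by ring
    exact le_of_mul_le_mul_left h4 (by positivity)

end Pool.Agent.H197.CT
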