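import Mathlib
import Pool.Agent.H197.CT.Dense
set_option autoImplicit false

/-! Continuous random functions of one coordinate, equal to one with large probability. -/

namespace Pool.Agent.H197.CT

open MeasureTheory Set Metric Complex
open scoped ENNReal NNReal
open Pool.Agent.TH277.HT (ch ch_norm ch_enorm ch_add ch_cont EE EE_le EE_meas cube_vol)

noncomputable def zet (m : ℕ) (w : Fin m) : ℝ := if (w : ℕ) = 0 then -((m : ℝ) - 1) else 1

theorem zet_sum (m : ℕ) (hm : 1 ≤ m) : ∑ w, zet m w = 0 := by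
  obtain ⟨k, rfl⟩ : ∃ k, m = k + 1 := ⟨m - 1, by omega⟩
  rw [Fin.sum_univ_succ]
  simp [zet]

theorem zet_abs (m : ℕ) (hm : 2 ≤ m) (w : Fin m) : |zet m w| ≤ m := by
  have h : (2 : ℝ) ≤ m := by exact_mod_cast hm
  unfold zet
  split_ifs
  · rw [abs_neg, abs_of_nonneg (by linarith)]; linarith
  · rw [abs_one]; linarith

theorem zet_sq (m : ℕ) (hm : 2 ≤ m) : (Fintype.card (Fin m) : ℝ) ≤ ∑ w, zet m w ^ 2 := by
  obtain ⟨k, rfl⟩ : ∃ k, m = k + 1 := ⟨m - 1, by omega⟩
  have h : (1 : ℝ) ≤ k := by exact_mod_cast (show 1 ≤ k by omega)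
  rw [Fin.sum_univ_succ]
  simp [zet]
  nlinarith

/-- the grid -/
noncomputable def gr (N i : ℕ) : ℝ := -1 + 2 * (i : ℝ) / (N + 1)

theorem gr_mono {N i j : ℕ} (h : i ≤ j) : gr N i ≤ gr N j := by
  unfold gr
  have h1 : (i : ℝ) ≤ j := by exact_mod_cast h
  gcongr

theorem gr_succ (N i : ℕ) : gr N (i + 1) = gr N i + 2 / (N + 1) := by
  unfold gr
  push_cast
  ring

/-- trapezoid functions -/
noncomputable def chi (N : ℕ) (K : ℝ) (i : ℕ) (t : ℝ) : ℝ :=
  max 0 (min 1 (K * min (t - gr N i) (gr N (i + 1) - t)))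

theorem chi_cont (N : ℕ) (K : ℝ) (i : ℕ) : Continuous (chi N K i) := by
  unfold chi; fun_prop

theorem chi_nonneg (N : ℕ) (K : ℝ) (i : ℕ) (t : ℝ) : 0 ≤ chi N K i t := le_max_left _ _

theorem chi_le (N : ℕ) (K : ℝ) (i : ℕ) (t : ℝ) : chi N K i t ≤ 1 :=
  max_le zero_le_one (min_le_left _ _)

theorem chi_zero {N : ℕ} {K : ℝ} (hK : 0 < K) {i : ℕ} {t : ℝ}
    (h : t ∉ Ioo (gr N i) (gr N (i + 1))) : chi N K i t = 0 := by
  unfold chi
  apply max_eq_left
  refine (min_le_right _ _).trans ?_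
  apply mul_nonpos_of_nonneg_of_nonpos hK.le
  by_contra hc
  push Not at hc
  rw [lt_min_iff] at hc
  exact h ⟨by linarith [hc.1], by linarith [hc.2]⟩

theorem chi_one {N : ℕ} {K : ℝ} (hK : 0 < K) {i : ℕ} {t : ℝ}
    (h1 : gr N i + 1 / K ≤ t) (h2 : t ≤ gr N (i + 1) - 1 / K) : chi N K i t = 1 := by
  unfold chi
  have h3 : 1 ≤ K * min (t - gr N i) (gr N (i + 1) - t) := by
    have h4 : 1 / K ≤ min (t - gr N i) (gr N (i + 1) - t) :=
      le_min (by linarith) (by linarith)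
    calc (1 : ℝ) = K * (1 / K) := by field_simp
      _ ≤ _ := by gcongr
  rw [min_eq_left h3]
  exact max_eq_right zero_le_one

theorem gr_disj {N i j : ℕ} {t : ℝ} (h1 : t ∈ Ioo (gr N i) (gr N (i + 1)))
    (h2 : t ∈ Ioo (gr N j) (gr N (j + 1))) : i = j := by
  rcases lt_trichotomy i j with h | h | h
  · have := gr_mono (N := N) (show i + 1 ≤ j by omega)
    linarith [h1.2, h2.1]
  · exact h
  · have := gr_mono (N := N) (show j + 1 ≤ i by omega)
    linarith [h2.2, h1.1]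

/-- the random function -/
noncomputable def Fz (m N : ℕ) (K : ℝ) (z : Fin (N + 1) → Fin m) (t : ℝ) : ℂ :=
  ∑ i, ((zet m (z i) : ℝ) : ℂ) * ((chi N K i t : ℝ) : ℂ)

theorem Fz_cont (m N : ℕ) (K : ℝ) (z : Fin (N + 1) → Fin m) : Continuous (Fz m N K z) := by
  unfold Fz
  refine continuous_finsetSum _ fun i _ => continuous_const.mul ?_
  exact Complex.continuous_ofReal.comp (chi_cont N K i)

theorem Fz_eq {m N : ℕ} {K : ℝ} (hK : 0 < K) (z : Fin (N + 1) → Fin m) {i : Fin (N + 1)} {t : ℝ}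
    (h : t ∈ Ioo (gr N i) (gr N (i + 1))) :
    Fz m N K z t = ((zet m (z i) : ℝ) : ℂ) * ((chi N K i t : ℝ) : ℂ) := by
  unfold Fz
  rw [Finset.sum_eq_single i]
  · intro j _ hj
    rw [chi_zero hK (fun hc => hj (Fin.ext (gr_disj hc h)))]
    simp
  · simp

theorem Fz_le {m N : ℕ} (hm : 2 ≤ m) {K : ℝ} (hK : 0 < K) (z : Fin (N + 1) → Fin m) (t : ℝ) :
    ‖Fz m N K z t‖ ≤ m := by
  by_cases h : ∃ i : Fin (N + 1), t ∈ Ioo (gr N i) (gr N (i + 1))
  · obtain ⟨i, hi⟩ := h
    rw [Fz_eq hK z hi, norm_mul, Complex.norm_real, Complex.norm_real, Real.norm_eq_abs,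
      Real.norm_eq_abs, abs_of_nonneg (chi_nonneg _ _ _ _)]
    calc |zet m (z i)| * chi N K i t ≤ m * 1 :=
          mul_le_mul (zet_abs m hm _) (chi_le _ _ _ _) (chi_nonneg _ _ _ _) (Nat.cast_nonneg _)
      _ = m := mul_one _
  · push Not at h
    have h1 : Fz m N K z t = 0 := by
      unfold Fz
      refine Finset.sum_eq_zero fun i _ => ?_
      rw [chi_zero hK (h i)]
      simp
    rw [h1, norm_zero]
    exact Nat.cast_nonneg _

/-- location of a point of `[-1,1]` in the grid -/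
theorem gr_find (N : ℕ) {t : ℝ} (ht : t ∈ Icc (-1 : ℝ) 1) :
    ∃ i : Fin (N + 1), t ∈ Icc (gr N i) (gr N (i + 1)) := by
  have hN : (0 : ℝ) < N + 1 := by positivity
  have h5 : 0 ≤ (t + 1) * (N + 1) / 2 := by
    have : 0 ≤ t + 1 := by linarith [ht.1]
    positivity
  refine ⟨⟨min (⌊(t + 1) * (N + 1) / 2⌋₊) N, by omega⟩, ?_, ?_⟩
  · simp only
    have h1 : ((min (⌊(t + 1) * (N + 1) / 2⌋₊) N : ℕ) : ℝ) ≤ (t + 1) * (N + 1) / 2 :=
      le_trans (by exact_mod_cast min_le_left _ _) (Nat.floor_le h5)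
    unfold gr
    have h2 : 2 * ((min (⌊(t + 1) * (N + 1) / 2⌋₊) N : ℕ) : ℝ) / (N + 1) ≤ t + 1 := by
      rw [div_le_iff₀ hN]; linarith
    linarith
  · simp only
    rcases le_total (⌊(t + 1) * (N + 1) / 2⌋₊) N with h | h
    · rw [min_eq_left h]
      have h8 := (Nat.lt_floor_add_one ((t + 1) * (N + 1) / 2)).le
      unfold gr
      have : t + 1 ≤ 2 * ((⌊(t + 1) * (N + 1) / 2⌋₊ + 1 : ℕ) : ℝ) / (N + 1) := by
        rw [le_div_iff₀ hN]; push_cast; linarith
      linarith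
    · rw [min_eq_right h]
      unfold gr
      have : 2 * ((N + 1 : ℕ) : ℝ) / (N + 1) = 2 := by push_cast; field_simp
      rw [this]
      linarith [ht.2]

/-- the measure of a slab -/
theorem slab_meas {n : ℕ} (j : Fin n) (a b : ℝ) (hab : a ≤ b) :
    mu n {ξ | ξ j ∈ Icc a b} ≤ ENNReal.ofReal ((b - a) * 2 ^ (n - 1)) := by
  classical
  have hm : MeasurableSet {ξ : Fin n → ℝ | ξ j ∈ Icc a b} :=
    measurableSet_Icc.preimage (measurable_pi_apply j)
  unfold mu
  rw [Measure.restrict_apply hm]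
  have hsub : {ξ : Fin n → ℝ | ξ j ∈ Icc a b} ∩ Icc (-1) 1 ⊆
      Icc (Function.update (-1 : Fin n → ℝ) j a) (Function.update (1 : Fin n → ℝ) j b) := by
    rintro ξ ⟨h1, h2⟩
    constructor
    · intro k
      by_cases hk : k = j
      · subst hk
        rw [Function.update_self]; exact h1.1
      · rw [Function.update_of_ne hk]; exact h2.1 k
    · intro k
      by_cases hk : k = j
      · subst hk
        rw [Function.update_self]; exact h1.2
      · rw [Function.update_of_ne hk]; exact h2.2 k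
  refine (measure_mono hsub).trans ?_
  rw [Real.volume_Icc_pi, ← Finset.mul_prod_erase Finset.univ _ (Finset.mem_univ j)]
  rw [Function.update_self, Function.update_self]
  have h3 : ∏ k ∈ Finset.univ.erase j, ENNReal.ofReal (Function.update (1 : Fin n → ℝ) j b k -
      Function.update (-1 : Fin n → ℝ) j a k) = ∏ k ∈ Finset.univ.erase j, 2 := by
    refine Finset.prod_congr rfl fun k hk => ?_
    have hk' := Finset.ne_of_mem_erase hk
    rw [Function.update_of_ne hk', Function.update_of_ne hk']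
    norm_num
  rw [h3, Finset.prod_const, Finset.card_erase_of_mem (Finset.mem_univ j), Finset.card_univ,
    Fintype.card_fin, ENNReal.ofReal_mul (by linarith)]
  apply le_of_eq
  congr 1
  rw [ENNReal.ofReal_pow (by norm_num)]
  norm_num

/-- the measure of the pieces -/
noncomputable def sl (n N : ℕ) : ℝ := 2 ^ n / (N + 1)

theorem sl_pos (n N : ℕ) : 0 < sl n N := by unfold sl; positivity

theorem sl_sum (n N : ℕ) : ∑ _i : Fin (N + 1), sl n N = 2 ^ n := by
  unfold sl
  rw [Finset.sum_const, Finset.card_univ, Fintype.card_fin, nsmul_eq_mul]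
  push_cast
  field_simp

theorem slab_meas' {n : ℕ} (j : Fin n) (N i : ℕ) :
    mu n {ξ | ξ j ∈ Icc (gr N i) (gr N (i + 1))} ≤ ENNReal.ofReal (sl n N) := by
  refine (slab_meas j _ _ (gr_mono (by omega))).trans ?_
  apply ENNReal.ofReal_le_ofReal
  rw [gr_succ]
  have hn : n = (n - 1) + 1 := by
    have := j.pos
    omega
  unfold sl
  have h2 : (2 : ℝ) ^ n = 2 ^ (n - 1) * 2 := by
    conv_lhs => rw [hn, pow_succ]
  rw [h2]
  apply le_of_eq
  ring

theorem exc_meas {n : ℕ} (j : Fin n) (m N : ℕ) {K : ℝ} (hK : 0 < K) (z : Fin (N + 1) → Fin m) :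
    mu n {ξ | Fz m N K z (ξ j) ≠ 1} ≤
      ENNReal.ofReal (∑ i ∈ (Finset.univ.filter fun i => ((z i : Fin m) : ℕ) = 0), sl n N +
        (N + 1) * 2 ^ n / K) := by
  have hsub : ∀ᵐ ξ ∂(mu n), ξ ∈ {ξ : Fin n → ℝ | Fz m N K z (ξ j) ≠ 1} →
      ξ ∈ (⋃ i ∈ (Finset.univ.filter fun i : Fin (N + 1) => ((z i : Fin m) : ℕ) = 0),
          {ξ : Fin n → ℝ | ξ j ∈ Icc (gr N i) (gr N (i + 1))}) ∪
        ⋃ i ∈ (Finset.univ : Finset (Fin (N + 1))),
          ({ξ : Fin n → ℝ | ξ j ∈ Icc (gr N i) (gr N i + 1 / K)} ∪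
            {ξ : Fin n → ℝ | ξ j ∈ Icc (gr N (i + 1) - 1 / K) (gr N (i + 1))}) := by
    refine mu_ae fun ξ hξ h => ?_
    obtain ⟨i, hi⟩ := gr_find N (t := ξ j) ⟨hξ.1 j, hξ.2 j⟩
    by_contra hc
    simp only [mem_union, mem_iUnion, mem_ofPred_eq, Finset.mem_filter, Finset.mem_univ, true_and,
      exists_prop, not_or, not_exists, not_and] at hc
    obtain ⟨h1, h2⟩ := hc
    have h3 := h2 i
    have h4 : gr N i + 1 / K < ξ j := by
      by_contra hcc
      push Not at hcc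
      exact h3.1 ⟨hi.1, hcc⟩
    have h5 : ξ j < gr N (i + 1) - 1 / K := by
      by_contra hcc
      push Not at hcc
      exact h3.2 ⟨hcc, hi.2⟩
    have hKi : 0 < 1 / K := by positivity
    have h6 : ξ j ∈ Ioo (gr N i) (gr N (i + 1)) := ⟨by linarith, by linarith⟩
    have h7 : ((z i : Fin m) : ℕ) ≠ 0 := fun h0 => h1 i h0 hi
    apply h
    rw [Fz_eq hK z h6, chi_one hK h4.le h5.le]
    unfold zet
    rw [if_neg h7]
    simp
  have h1 : mu n {ξ | Fz m N K z (ξ j) ≠ 1} ≤ mu n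
      ((⋃ i ∈ (Finset.univ.filter fun i : Fin (N + 1) => ((z i : Fin m) : ℕ) = 0),
          {ξ : Fin n → ℝ | ξ j ∈ Icc (gr N i) (gr N (i + 1))}) ∪
        ⋃ i ∈ (Finset.univ : Finset (Fin (N + 1))),
          ({ξ : Fin n → ℝ | ξ j ∈ Icc (gr N i) (gr N i + 1 / K)} ∪
            {ξ : Fin n → ℝ | ξ j ∈ Icc (gr N (i + 1) - 1 / K) (gr N (i + 1))})) :=
    measure_mono_ae hsub
  refine h1.trans ((measure_union_le _ _).trans ?_)
  have hKi : 0 < 1 / K := by positivity
  have hn : n = (n - 1) + 1 := by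
    have := j.pos
    omega
  have h2n : (2 : ℝ) ^ n = 2 ^ (n - 1) * 2 := by
    conv_lhs => rw [hn, pow_succ]
  rw [ENNReal.ofReal_add (Finset.sum_nonneg fun _ _ => (sl_pos n N).le) (by positivity)]
  refine add_le_add ?_ ?_
  · refine (measure_biUnion_finset_le _ _).trans ?_
    rw [ENNReal.ofReal_sum_of_nonneg fun _ _ => (sl_pos n N).le]
    exact Finset.sum_le_sum fun i _ => slab_meas' j N i
  · refine (measure_biUnion_finset_le _ _).trans ?_
    calc ∑ i : Fin (N + 1), mu n ({ξ : Fin n → ℝ | ξ j ∈ Icc (gr N i) (gr N i + 1 / K)} ∪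
            {ξ : Fin n → ℝ | ξ j ∈ Icc (gr N (i + 1) - 1 / K) (gr N (i + 1))})
        ≤ ∑ _i : Fin (N + 1), ENNReal.ofReal (2 ^ n / K) := by
          refine Finset.sum_le_sum fun i _ => (measure_union_le _ _).trans ?_
          calc _ ≤ ENNReal.ofReal ((1 / K) * 2 ^ (n - 1)) + ENNReal.ofReal ((1 / K) * 2 ^ (n - 1)) := by
                refine add_le_add ?_ ?_
                · refine (slab_meas j _ _ (by linarith)).trans (le_of_eq ?_)
                  congr 1; ring
                · refine (slab_meas j _ _ (by linarith)).trans (le_of_eq ?_)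
                  congr 1; ring
            _ = ENNReal.ofReal (2 ^ n / K) := by
                rw [← ENNReal.ofReal_add (by positivity) (by positivity), h2n]
                congr 1; ring
      _ = ENNReal.ofReal ((N + 1) * 2 ^ n / K) := by
          rw [Finset.sum_const, Finset.card_univ, Fintype.card_fin, nsmul_eq_mul,
            ← ENNReal.ofReal_natCast, ← ENNReal.ofReal_mul (by positivity)]
          congr 1
          push_cast
          ring

end Pool.Agent.H197.CT
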