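import Mathlib
import Pool.Graph.R_pool_sql_team_seeded_64922ed1.X93.ST.Mom
import Pool.Agent.H197.CT.Slab
set_option autoImplicit false

/-! The averaged estimate. -/

namespace Pool.Agent.H197.CT

open MeasureTheory Set Metric Complex
open scoped ENNReal NNReal
open Pool.Agent.TH277.HT (ch ch_norm ch_enorm ch_add ch_cont EE EE_le EE_meas cube_vol)
open Pool.Agent.X93.ST (RS A2 A2_nonneg upper lower)

theorem enorm_rpow (z : ℂ) {p : ℝ} (hp : 0 ≤ p) : ‖z‖ₑ ^ p = ENNReal.ofReal (‖z‖ ^ p) := by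
  rw [← ofReal_norm, ENNReal.ofReal_rpow_of_nonneg (norm_nonneg _) hp]

/-- The bound for functions which are not normalized. -/
theorem Good.bound {n : ℕ} {j : Fin n} {P : (Fin n → ℝ) → ℂ} (hP : Good n j P) (q : ℝ)
    (hq : 2 * ((n : ℝ) + 1) / n < q) : ∃ C : ℝ, 0 ≤ C ∧ ∀ (F : ℝ → ℂ) (K : ℝ), 0 < K →
      Measurable F → (∀ t, ‖F t‖ ≤ K) →
      eLpNorm (EE fun ξ => P ξ * F (ξ j)) (ENNReal.ofReal q) volume ≤ ENNReal.ofReal (C * K) := by
  obtain ⟨C, hC⟩ := hP.2 q hq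
  refine ⟨C, C.coe_nonneg, fun F K hK hF hb => ?_⟩
  have h1 := hC (fun t => ((K⁻¹ : ℝ) : ℂ) * F t) (hF.const_mul _) (fun t => by
    rw [norm_mul, Complex.norm_real, Real.norm_eq_abs, abs_of_pos (by positivity)]
    calc K⁻¹ * ‖F t‖ ≤ K⁻¹ * K := by gcongr; exact hb t
      _ = 1 := inv_mul_cancel₀ hK.ne')
  have h2 : (EE fun ξ => P ξ * F (ξ j)) =
      ((K : ℝ) : ℂ) • (EE fun ξ => P ξ * (((K⁻¹ : ℝ) : ℂ) * F (ξ j))) := by
    funext y
    rw [Pi.smul_apply, smul_eq_mul, ← EE_smul]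
    congr 1
    ext ξ
    have h3 : ((K : ℝ) : ℂ) * ((K⁻¹ : ℝ) : ℂ) = 1 := by
      rw [← Complex.ofReal_mul, mul_inv_cancel₀ hK.ne', Complex.ofReal_one]
    calc P ξ * F (ξ j) = (((K : ℝ) : ℂ) * ((K⁻¹ : ℝ) : ℂ)) * (P ξ * F (ξ j)) := by
          rw [h3, one_mul]
      _ = _ := by ring
  rw [h2, eLpNorm_const_smul]
  have h4 : ‖((K : ℝ) : ℂ)‖ₑ = ENNReal.ofReal K := by
    rw [← ofReal_norm, Complex.norm_real, Real.norm_eq_abs, abs_of_pos hK]
  rw [h4, mul_comm (C : ℝ) K, ENNReal.ofReal_mul hK.le, ENNReal.ofReal_coe_nnreal]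
  gcongr

theorem prod_meas {n : ℕ} (j : Fin n) {P : (Fin n → ℝ) → ℂ} (hP : Continuous P) {F : ℝ → ℂ}
    (hF : Measurable F) : Measurable fun ξ => P ξ * F (ξ j) :=
  hP.measurable.mul (hF.comp (measurable_pi_apply j))

theorem int_prod {n : ℕ} (j : Fin n) {P : (Fin n → ℝ) → ℂ} (hP : Continuous P) {F : ℝ → ℂ}
    (hF : Measurable F) {K : ℝ} (hK : 0 < K) (hb : ∀ t, ‖F t‖ ≤ K) :
    Integrable (fun ξ => P ξ * F (ξ j)) (mu n) := by
  have h1 := int_cont j (P := fun ξ => ((K : ℝ) : ℂ) * P ξ) (continuous_const.mul hP)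
    (F := fun t => ((K⁻¹ : ℝ) : ℂ) * F t) (hF.const_mul _) (fun t => by
    rw [norm_mul, Complex.norm_real, Real.norm_eq_abs, abs_of_pos (by positivity)]
    calc K⁻¹ * ‖F t‖ ≤ K⁻¹ * K := by gcongr; exact hb t
      _ = 1 := inv_mul_cancel₀ hK.ne')
  refine h1.congr (Filter.Eventually.of_forall fun ξ => ?_)
  simp only
  have h3 : ((K : ℝ) : ℂ) * ((K⁻¹ : ℝ) : ℂ) = 1 := by
    rw [← Complex.ofReal_mul, mul_inv_cancel₀ hK.ne', Complex.ofReal_one]
  calc ((K : ℝ) : ℂ) * P ξ * (((K⁻¹ : ℝ) : ℂ) * F (ξ j)) =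
      (((K : ℝ) : ℂ) * ((K⁻¹ : ℝ) : ℂ)) * (P ξ * F (ξ j)) := by ring
    _ = _ := by rw [h3, one_mul]

theorem EE_Fz {n : ℕ} (j : Fin n) {P : (Fin n → ℝ) → ℂ} (hP : Continuous P) (m N : ℕ) (K : ℝ)
    (z : Fin (N + 1) → Fin m) (y : (Fin n → ℝ) × ℝ) :
    EE (fun ξ => P ξ * Fz m N K z (ξ j)) y =
      RS (zet m) (fun i : Fin (N + 1) =>
        EE (fun ξ => P ξ * ((chi N K i (ξ j) : ℝ) : ℂ)) y) z := by
  unfold RS
  have h1 : (fun ξ => P ξ * Fz m N K z (ξ j)) =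
      fun ξ => ∑ i ∈ (Finset.univ : Finset (Fin (N + 1))),
      ((zet m (z i) : ℝ) : ℂ) * (P ξ * ((chi N K i (ξ j) : ℝ) : ℂ)) := by
    funext ξ
    unfold Fz
    rw [Finset.mul_sum]
    refine Finset.sum_congr rfl fun i _ => ?_
    ring
  rw [h1, EE_sum]
  · refine Finset.sum_congr rfl fun i _ => ?_
    rw [EE_smul]
  · intro i _
    refine Integrable.const_mul ?_ _
    refine int_cont j hP (F := fun t => ((chi N K i t : ℝ) : ℂ))
      (Complex.continuous_ofReal.comp (chi_cont N K i)).measurable fun t => ?_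
    rw [Complex.norm_real, Real.norm_eq_abs, abs_of_nonneg (chi_nonneg _ _ _ _)]
    exact chi_le _ _ _ _

theorem EE_chi {n : ℕ} (j : Fin n) {P : (Fin n → ℝ) → ℂ} (hP : Continuous P) {B : ℝ}
    (hB : ∀ ξ ∈ Q n, ‖P ξ‖ ≤ B) (N : ℕ) {K : ℝ} (hK : 0 < K)
    (i : ℕ) (y : (Fin n → ℝ) × ℝ) :
    ‖EE (fun ξ => P ξ * ((chi N K i (ξ j) : ℝ) : ℂ)) y‖ ≤ B * sl n N := by
  have hB0 : 0 ≤ B := (norm_nonneg _).trans (hB 0 ⟨fun k => by simp, fun k => by simp⟩)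
  refine (EE_norm_le _ _).trans ?_
  set A : Set (Fin n → ℝ) := {ξ | ξ j ∈ Icc (gr N i) (gr N (i + 1))} with hA
  have hms : MeasurableSet A := measurableSet_Icc.preimage (measurable_pi_apply j)
  have h1 : ∀ᵐ ξ ∂(mu n), ‖P ξ * ((chi N K i (ξ j) : ℝ) : ℂ)‖ ≤ A.indicator (fun _ => B) ξ := by
    refine mu_ae fun ξ hξ => ?_
    rw [Set.indicator_apply]
    by_cases hx : ξ ∈ A
    · rw [if_pos hx, norm_mul, Complex.norm_real, Real.norm_eq_abs,
        abs_of_nonneg (chi_nonneg _ _ _ _)]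
      calc ‖P ξ‖ * chi N K i (ξ j) ≤ B * 1 :=
            mul_le_mul (hB ξ hξ) (chi_le _ _ _ _) (chi_nonneg _ _ _ _) hB0
        _ = B := mul_one _
    · rw [if_neg hx, chi_zero hK (fun h => hx ⟨h.1.le, h.2.le⟩)]
      simp
  calc ∫ ξ, ‖P ξ * ((chi N K i (ξ j) : ℝ) : ℂ)‖ ∂(mu n)
      ≤ ∫ ξ, A.indicator (fun _ => B) ξ ∂(mu n) := by
        refine integral_mono_of_nonneg (Filter.Eventually.of_forall fun x => norm_nonneg _) ?_ h1
        exact (integrable_const _).indicator hms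
    _ = B * (mu n).real A := by
        rw [integral_indicator hms, setIntegral_const, smul_eq_mul, mul_comm]
    _ ≤ B * sl n N := by
        refine mul_le_mul_of_nonneg_left ?_ hB0
        exact ENNReal.toReal_le_of_le_ofReal (sl_pos n N).le (slab_meas' j N i)

/-- the averaged estimate -/
theorem average {n : ℕ} (j : Fin n) (p : ℝ) (hp1 : 2 * ((n : ℝ) + 1) / n < p) (hp2 : p ≤ 4)
    {P : (Fin n → ℝ) → ℂ} (hP : Good n j P) {B : ℝ} (hB0 : 0 ≤ B) (hB : ∀ ξ ∈ Q n, ‖P ξ‖ ≤ B)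
    (m : ℕ) (hm : 2 ≤ m) (τ : ℝ) (hτ : 0 < τ) :
    ∃ N : ℕ, ∀ K : ℝ, 0 < K →
      ∑ z : Fin (N + 1) → Fin m, ∫⁻ y, ‖EE (fun ξ => P ξ * Fz m N K z (ξ j)) y‖ₑ ^ p ≤
      ENNReal.ofReal ((m : ℝ) ^ (N + 1) * τ) := by
  have hn0 : (0 : ℝ) < n := by
    have := j.pos
    positivity
  have hpc : 2 < 2 * ((n : ℝ) + 1) / n := by
    rw [lt_div_iff₀ hn0]; linarith
  set q : ℝ := (2 * ((n : ℝ) + 1) / n + p) / 2 with hq
  have hq1 : 2 * ((n : ℝ) + 1) / n < q := by linarith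
  have hq2 : q < p := by linarith
  have hq0 : 2 < q := by linarith
  obtain ⟨C, hC, hr⟩ := hP.bound q hq1
  have : Nonempty (Fin m) := ⟨⟨0, by omega⟩⟩
  have hmR : (2 : ℝ) ≤ m := by exact_mod_cast hm
  set D : ℝ := C * m with hD
  have hD0 : 0 ≤ D := by positivity
  set S : ℝ := 2 ^ n with hS
  have hS0 : 0 < S := by positivity
  set κ1 : ℝ := (4 * (m : ℝ) ^ 5) ^ (p / 4) with hκ1
  have hκ10 : 0 ≤ κ1 := by positivity
  -- choice of the size of the slabs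
  obtain ⟨δ, hδ, hδ2⟩ : ∃ δ : ℝ, 0 < δ ∧
      κ1 * (B ^ 2 * (δ * S)) ^ ((p - q) / 2) * D ^ q ≤ τ := by
    have hcont : ContinuousAt (fun δ : ℝ => κ1 * (B ^ 2 * (δ * S)) ^ ((p - q) / 2) * D ^ q) 0 := by
      refine (continuousAt_const.mul (ContinuousAt.rpow_const (by fun_prop) ?_)).mul
        continuousAt_const
      right; linarith
    have h0 : (fun δ : ℝ => κ1 * (B ^ 2 * (δ * S)) ^ ((p - q) / 2) * D ^ q) 0 < τ := by
      simp only [zero_mul, mul_zero]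
      rw [Real.zero_rpow (by linarith), mul_zero, zero_mul]
      exact hτ
    have hev := hcont.eventually_lt continuousAt_const h0
    have hev2 : ∀ᶠ δ : ℝ in nhdsWithin 0 (Ioi 0),
        κ1 * (B ^ 2 * (δ * S)) ^ ((p - q) / 2) * D ^ q < τ := hev.filter_mono nhdsWithin_le_nhds
    obtain ⟨δ, h1, h2⟩ := (hev2.and self_mem_nhdsWithin).exists
    exact ⟨δ, h2, h1.le⟩
  obtain ⟨N, hN⟩ : ∃ N : ℕ, sl n N ≤ δ := by
    obtain ⟨N, hN⟩ := exists_nat_gt (S / δ)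
    refine ⟨N, ?_⟩
    unfold sl
    rw [div_le_iff₀ (by positivity)]
    rw [div_lt_iff₀ hδ] at hN
    nlinarith
  refine ⟨N, fun K hK => ?_⟩
  set a : Fin (N + 1) → (Fin n → ℝ) × ℝ → ℂ :=
    fun i y => EE (fun ξ => P ξ * ((chi N K i (ξ j) : ℝ) : ℂ)) y with ha
  have hA : ∀ y, A2 (fun i => a i y) ≤ B ^ 2 * (δ * S) := by
    intro y
    unfold A2
    calc ∑ i, ‖a i y‖ ^ 2 ≤ ∑ i : Fin (N + 1), B ^ 2 * (δ * sl n N) := by
          refine Finset.sum_le_sum fun i _ => ?_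
          have h1 := EE_chi j hP.1 hB N hK i y
          calc ‖a i y‖ ^ 2 ≤ (B * sl n N) ^ 2 := pow_le_pow_left₀ (norm_nonneg _) h1 2
            _ = B ^ 2 * (sl n N * sl n N) := by ring
            _ ≤ _ := by
                refine mul_le_mul_of_nonneg_left ?_ (by positivity)
                exact mul_le_mul_of_nonneg_right hN (sl_pos n N).le
      _ = _ := by rw [← Finset.mul_sum, ← Finset.mul_sum, sl_sum]
  have hcard : (Fintype.card (Fin m) : ℝ) = m := by simp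
  have hFc : ∀ z : Fin (N + 1) → Fin m, Continuous (EE fun ξ => P ξ * Fz m N K z (ξ j)) := fun z =>
    EE_continuous (int_prod j hP.1 (Fz_cont m N K z).measurable (by linarith) (Fz_le hm hK z))
  have hFm : ∀ (r : ℝ) (z : Fin (N + 1) → Fin m),
      Measurable fun y => ‖EE (fun ξ => P ξ * Fz m N K z (ξ j)) y‖ₑ ^ r := fun r z =>
    (hFc z).measurable.enorm.pow_const r
  -- pointwise
  have hpt : ∀ y, ∑ z : Fin (N + 1) → Fin m, ‖EE (fun ξ => P ξ * Fz m N K z (ξ j)) y‖ₑ ^ p ≤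
      ENNReal.ofReal (κ1 * (B ^ 2 * (δ * S)) ^ ((p - q) / 2)) *
        ∑ z : Fin (N + 1) → Fin m, ‖EE (fun ξ => P ξ * Fz m N K z (ξ j)) y‖ₑ ^ q := by
    intro y
    simp_rw [fun z : Fin (N + 1) → Fin m => enorm_rpow
      (EE (fun ξ => P ξ * Fz m N K z (ξ j)) y) (show 0 ≤ p by linarith),
      fun z : Fin (N + 1) → Fin m => enorm_rpow
      (EE (fun ξ => P ξ * Fz m N K z (ξ j)) y) (show 0 ≤ q by linarith)]
    rw [← ENNReal.ofReal_sum_of_nonneg fun _ _ => by positivity,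
      ← ENNReal.ofReal_sum_of_nonneg fun _ _ => by positivity,
      ← ENNReal.ofReal_mul (by positivity)]
    apply ENNReal.ofReal_le_ofReal
    simp_rw [EE_Fz j hP.1]
    have h1 := upper (zet m) (zet_sum m (by omega)) m (by linarith) (zet_abs m hm)
      (fun i => a i y) p (by linarith) hp2
    have h2 := lower (zet m) (zet_sum m (by omega)) (zet_sq m hm) (fun i => a i y) q hq0.le
    have hA0 := A2_nonneg (fun i => a i y)
    refine h1.trans ?_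
    have h3 : A2 (fun i => a i y) ^ (p / 2) ≤ (B ^ 2 * (δ * S)) ^ ((p - q) / 2) *
        A2 (fun i => a i y) ^ (q / 2) := by
      calc A2 (fun i => a i y) ^ (p / 2) = A2 (fun i => a i y) ^ ((p - q) / 2) *
            A2 (fun i => a i y) ^ (q / 2) := by
            rw [← Real.rpow_add_of_nonneg hA0 (by linarith) (by linarith)]
            congr 1; ring
        _ ≤ _ := by
            refine mul_le_mul_of_nonneg_right ?_ (by positivity)
            exact Real.rpow_le_rpow hA0 (hA y) (by linarith)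
    rw [hcard] at h1 h2 ⊢
    calc (m : ℝ) ^ (N + 1) * (κ1 * A2 (fun i => a i y) ^ (p / 2))
        ≤ (m : ℝ) ^ (N + 1) * (κ1 * ((B ^ 2 * (δ * S)) ^ ((p - q) / 2) *
        A2 (fun i => a i y) ^ (q / 2))) := by gcongr
      _ = κ1 * (B ^ 2 * (δ * S)) ^ ((p - q) / 2) *
          ((m : ℝ) ^ (N + 1) * A2 (fun i => a i y) ^ (q / 2)) := by ring
      _ ≤ _ := by
          refine mul_le_mul_of_nonneg_left h2 (by positivity)
  have hLq : ∀ z : Fin (N + 1) → Fin m, ∫⁻ y, ‖EE (fun ξ => P ξ * Fz m N K z (ξ j)) y‖ₑ ^ q ≤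
      ENNReal.ofReal (D ^ q) := by
    intro z
    have h1 := hr (Fz m N K z) m (by linarith) (Fz_cont m N K z).measurable (Fz_le hm hK z)
    rw [eLpNorm_eq_lintegral_rpow_enorm_toReal (by simp; linarith) (by simp),
      ENNReal.toReal_ofReal (by linarith)] at h1
    have h2 := ENNReal.rpow_le_rpow h1 (show 0 ≤ q by linarith)
    rw [← ENNReal.rpow_mul, one_div, inv_mul_cancel₀ (by linarith), ENNReal.rpow_one,
      ENNReal.ofReal_rpow_of_nonneg hD0 (by linarith)] at h2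
    exact h2
  calc ∑ z : Fin (N + 1) → Fin m, ∫⁻ y, ‖EE (fun ξ => P ξ * Fz m N K z (ξ j)) y‖ₑ ^ p
      = ∫⁻ y, ∑ z : Fin (N + 1) → Fin m, ‖EE (fun ξ => P ξ * Fz m N K z (ξ j)) y‖ₑ ^ p := by
        rw [lintegral_finsetSum _ fun z _ => hFm p z]
    _ ≤ ∫⁻ y, ENNReal.ofReal (κ1 * (B ^ 2 * (δ * S)) ^ ((p - q) / 2)) *
        ∑ z : Fin (N + 1) → Fin m, ‖EE (fun ξ => P ξ * Fz m N K z (ξ j)) y‖ₑ ^ q :=
        lintegral_mono hpt
    _ = ENNReal.ofReal (κ1 * (B ^ 2 * (δ * S)) ^ ((p - q) / 2)) *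
        ∑ z : Fin (N + 1) → Fin m, ∫⁻ y, ‖EE (fun ξ => P ξ * Fz m N K z (ξ j)) y‖ₑ ^ q := by
        rw [lintegral_const_mul _ (Finset.measurable_fun_sum _ fun z _ => hFm q z),
          lintegral_finsetSum _ fun z _ => hFm q z]
    _ ≤ ENNReal.ofReal (κ1 * (B ^ 2 * (δ * S)) ^ ((p - q) / 2)) *
        ∑ z : Fin (N + 1) → Fin m, ENNReal.ofReal (D ^ q) := by
        gcongr with z _
        exact hLq z
    _ = ENNReal.ofReal (κ1 * (B ^ 2 * (δ * S)) ^ ((p - q) / 2) * ((m : ℝ) ^ (N + 1) * D ^ q)) := by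
        rw [Finset.sum_const, Finset.card_univ, nsmul_eq_mul,
          ENNReal.ofReal_mul (show 0 ≤ κ1 * (B ^ 2 * (δ * S)) ^ ((p - q) / 2) by positivity),
          ENNReal.ofReal_mul (show 0 ≤ (m : ℝ) ^ (N + 1) by positivity)]
        congr 2
        rw [Fintype.card_pi]
        simp only [Finset.prod_const, Finset.card_univ, Fintype.card_fin]
        rw [← Nat.cast_pow, ENNReal.ofReal_natCast]
    _ ≤ _ := by
        apply ENNReal.ofReal_le_ofReal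
        calc _ = (m : ℝ) ^ (N + 1) * (κ1 * (B ^ 2 * (δ * S)) ^ ((p - q) / 2) * D ^ q) := by ring
          _ ≤ _ := by gcongr

end Pool.Agent.H197.CT
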