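import Mathlib
import Pool.Agent.H197.CT.Corr
set_option autoImplicit false

/-! One step of the correction. -/

namespace Pool.Agent.H197.CT

open MeasureTheory Set Metric Complex
open scoped ENNReal NNReal
open Pool.Agent.TH277.HT (ch ch_norm ch_enorm ch_add ch_cont EE EE_le EE_meas cube_vol)

theorem sum_coord {Ω : Type} [Fintype Ω] {N : ℕ} (ζ : Ω → ℝ) (h0 : ∑ w, ζ w = 0) (i : Fin N) :
    ∑ z : Fin N → Ω, ζ (z i) = 0 := by
  classical
  have h := Finset.prod_univ_sum (fun _ : Fin N => (Finset.univ : Finset Ω))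
    (fun k w => if k = i then ζ w else 1)
  rw [Finset.prod_eq_zero (Finset.mem_univ i) (by simpa using h0), Fintype.piFinset_univ] at h
  rw [h]
  refine Finset.sum_congr rfl fun z _ => ?_
  rw [Finset.prod_ite_eq' Finset.univ i (fun k => ζ (z k))]
  simp

theorem pick {n : ℕ} (j : Fin n) (p : ℝ) (hp1 : 2 * ((n : ℝ) + 1) / n < p) (hp2 : p ≤ 4)
    {P : (Fin n → ℝ) → ℂ} (hP : Good n j P) {B : ℝ} (hB0 : 0 ≤ B) (hB : ∀ ξ ∈ Q n, ‖P ξ‖ ≤ B)
    (m : ℕ) (hm : 2 ≤ m) (τ : ℝ) (hτ : 0 < τ) (θ : ℝ) (hθ : 0 < θ) :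
    ∃ F : ℝ → ℂ, Continuous F ∧ (∀ t, ‖F t‖ ≤ m) ∧
      mu n {ξ | F (ξ j) ≠ 1} ≤ ENNReal.ofReal (2 * 2 ^ n / m + θ) ∧
      ∫⁻ y, ‖EE (fun ξ => P ξ * F (ξ j)) y‖ₑ ^ p ≤ ENNReal.ofReal τ := by
  obtain ⟨N, hN⟩ := average j p hp1 hp2 hP hB0 hB m hm (τ / 2) (by positivity)
  set K : ℝ := (N + 1) * 2 ^ n / θ with hK
  have hK0 : 0 < K := by positivity
  specialize hN K hK0
  set S : ℝ := 2 ^ n with hS
  have hS0 : 0 < S := by positivity
  have hmR : (2 : ℝ) ≤ m := by exact_mod_cast hm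
  have hM0 : (0 : ℝ) < (m : ℝ) ^ (N + 1) := by positivity
  set v : (Fin (N + 1) → Fin m) → ℝ := fun z =>
    (∫⁻ y, ‖EE (fun ξ => P ξ * Fz m N K z (ξ j)) y‖ₑ ^ p).toReal with hv
  set u : (Fin (N + 1) → Fin m) → ℝ := fun z => ∑ i, sl n N * ((1 - zet m (z i)) / m) with hu
  have hcardz : ((Finset.univ : Finset (Fin (N + 1) → Fin m)).card : ℝ) = (m : ℝ) ^ (N + 1) := by
    rw [Finset.card_univ, Fintype.card_pi]
    simp
  have hne : Nonempty (Fin m) := ⟨⟨0, by omega⟩⟩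
  have hfin : ∀ z : Fin (N + 1) → Fin m,
      ∫⁻ y, ‖EE (fun ξ => P ξ * Fz m N K z (ξ j)) y‖ₑ ^ p ≠ ⊤ := by
    intro z
    have h1 : ∫⁻ y, ‖EE (fun ξ => P ξ * Fz m N K z (ξ j)) y‖ₑ ^ p ≤
        ∑ z : Fin (N + 1) → Fin m, ∫⁻ y, ‖EE (fun ξ => P ξ * Fz m N K z (ξ j)) y‖ₑ ^ p :=
      Finset.single_le_sum (f := fun z : Fin (N + 1) → Fin m =>
        ∫⁻ y, ‖EE (fun ξ => P ξ * Fz m N K z (ξ j)) y‖ₑ ^ p) (fun _ _ => zero_le)
        (Finset.mem_univ z)
    exact ne_top_of_le_ne_top ENNReal.ofReal_ne_top (h1.trans hN)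
  have hsv : ∑ z, v z ≤ (m : ℝ) ^ (N + 1) * (τ / 2) := by
    rw [hv]
    simp only
    rw [← ENNReal.toReal_sum fun z _ => hfin z]
    exact ENNReal.toReal_le_of_le_ofReal (by positivity) hN
  have hsu : ∑ z, u z = (m : ℝ) ^ (N + 1) * (S / m) := by
    rw [hu]
    simp only
    rw [Finset.sum_comm]
    have h1 : ∀ i : Fin (N + 1), ∑ z : Fin (N + 1) → Fin m, sl n N * ((1 - zet m (z i)) / m) =
        sl n N * ((m : ℝ) ^ (N + 1) / m) := by
      intro i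
      rw [← Finset.mul_sum, ← Finset.sum_div, Finset.sum_sub_distrib,
        sum_coord (zet m) (zet_sum m (by omega)) i, Finset.sum_const, nsmul_eq_mul, hcardz]
      ring
    rw [Finset.sum_congr rfl fun i _ => h1 i, ← Finset.sum_mul, sl_sum]
    ring
  obtain ⟨z, -, hz⟩ := Finset.exists_le_of_sum_le (s := (Finset.univ :
    Finset (Fin (N + 1) → Fin m))) (f := fun z => u z * (m / (2 * S)) + v z / τ)
    (g := fun _ => (1 : ℝ)) Finset.univ_nonempty (by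
      rw [Finset.sum_add_distrib, ← Finset.sum_mul, ← Finset.sum_div, hsu, Finset.sum_const,
        nsmul_eq_mul, hcardz]
      have h2 : (∑ z, v z) / τ ≤ (m : ℝ) ^ (N + 1) / 2 := by
        rw [div_le_iff₀ hτ]
        calc _ ≤ _ := hsv
          _ = _ := by ring
      have h3 : (m : ℝ) ^ (N + 1) * (S / m) * (m / (2 * S)) = (m : ℝ) ^ (N + 1) / 2 := by
        field_simp
      rw [h3]
      linarith)
  have hfac : ∀ w : Fin m, 0 ≤ (1 - zet m w) / m := by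
    intro w
    unfold zet
    split_ifs
    · apply div_nonneg <;> linarith
    · simp
  have hu0 : 0 ≤ u z := Finset.sum_nonneg fun i _ => mul_nonneg (sl_pos n N).le (hfac _)
  have hv0 : 0 ≤ v z := ENNReal.toReal_nonneg
  have hu1 : u z * (m / (2 * S)) ≤ 1 := by
    have : 0 ≤ v z / τ := by positivity
    linarith
  have hv1 : v z / τ ≤ 1 := by
    have : 0 ≤ u z * (m / (2 * S)) := by positivity
    linarith
  refine ⟨Fz m N K z, Fz_cont m N K z, Fz_le hm hK0 z, ?_, ?_⟩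
  · refine (exc_meas j m N hK0 z).trans (ENNReal.ofReal_le_ofReal ?_)
    have h2 : ∑ i ∈ (Finset.univ.filter fun i => ((z i : Fin m) : ℕ) = 0), sl n N ≤ u z := by
      rw [hu]
      simp only
      rw [Finset.sum_filter]
      refine Finset.sum_le_sum fun i _ => ?_
      split_ifs with h
      · have : (1 - zet m (z i)) / m = 1 := by
          unfold zet
          rw [if_pos h]
          field_simp
          ring
        rw [this, mul_one]
      · exact mul_nonneg (sl_pos n N).le (hfac _)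
    have h3 : u z ≤ 2 * S / m := by
      rw [le_div_iff₀ (by positivity)]
      have h4 : u z * (m / (2 * S)) * (2 * S) ≤ 1 * (2 * S) := by gcongr
      rw [mul_assoc, div_mul_cancel₀ _ (by positivity), one_mul] at h4
      exact h4
    have h5 : (N + 1) * S / K = θ := by
      rw [hK]
      field_simp
    rw [← hS, h5]
    linarith
  · rw [← ENNReal.ofReal_toReal (hfin z)]
    apply ENNReal.ofReal_le_ofReal
    rw [div_le_iff₀ hτ, one_mul] at hv1
    exact hv1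

theorem vol_ball {n : ℕ} (y : (Fin n → ℝ) × ℝ) {r : ℝ} (hr : 0 < r) :
    volume (ball y r) = ENNReal.ofReal ((2 * r) ^ n * (2 * r)) := by
  obtain ⟨x, t⟩ := y
  rw [← ball_prod_same, Measure.volume_eq_prod, Measure.prod_prod, Real.volume_pi_ball _ hr,
    Real.volume_ball, Fintype.card_fin, ← ENNReal.ofReal_mul (by positivity)]

theorem sup_small {n : ℕ} (u : (Fin n → ℝ) × ℝ → ℂ) (Λ : ℝ) (hΛ : 0 < Λ)
    (hu : ∀ ξ ξ', ‖u ξ - u ξ'‖ ≤ Λ * ‖ξ - ξ'‖) (p : ℝ) (hp : 0 < p) (s : ℝ) (hs : 0 < s)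
    (h : ∫⁻ ξ, ‖u ξ‖ₑ ^ p < ENNReal.ofReal ((s / 2) ^ p) *
      ENNReal.ofReal ((2 * (s / (2 * Λ))) ^ n * (2 * (s / (2 * Λ))))) (ξ : (Fin n → ℝ) × ℝ) :
    ‖u ξ‖ ≤ s := by
  by_contra hc
  push Not at hc
  apply absurd h
  push Not
  rw [← vol_ball ξ (show 0 < s / (2 * Λ) by positivity), ← setLIntegral_const]
  calc ∫⁻ _x in ball ξ (s / (2 * Λ)), ENNReal.ofReal ((s / 2) ^ p)
      ≤ ∫⁻ x in ball ξ (s / (2 * Λ)), ‖u x‖ₑ ^ p := by
        refine setLIntegral_mono' measurableSet_ball fun x hx => ?_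
        rw [enorm_rpow _ hp.le]
        apply ENNReal.ofReal_le_ofReal
        refine Real.rpow_le_rpow (by positivity) ?_ hp.le
        rw [mem_ball, dist_eq_norm] at hx
        have h1 := hu ξ x
        have h2 : ‖u ξ‖ - ‖u x‖ ≤ ‖u ξ - u x‖ := norm_sub_norm_le _ _
        have h3 : Λ * ‖ξ - x‖ ≤ s / 2 := by
          rw [norm_sub_rev] at hx
          calc Λ * ‖ξ - x‖ ≤ Λ * (s / (2 * Λ)) := by gcongr
            _ = s / 2 := by field_simp
        linarith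
    _ ≤ _ := setLIntegral_le_lintegral _ _

theorem lp_all {X : Type*} [MeasurableSpace X] {μ : Measure X} (u : X → ℂ) (p : ℝ) (hp : 0 < p)
    (δ : ℝ) (hδ : 0 < δ)
    (hb : ∀ ξ, ‖u ξ‖ ≤ δ) (h : ∫⁻ ξ, ‖u ξ‖ₑ ^ p ∂μ ≤ ENNReal.ofReal (δ ^ p))
    (r : ℝ≥0∞) (hr : ENNReal.ofReal p ≤ r) : eLpNorm u r μ ≤ ENNReal.ofReal δ := by
  rcases eq_or_ne r ⊤ with rfl | hr'
  · rw [eLpNorm_exponent_top]
    exact eLpNormEssSup_le_of_ae_bound (Filter.Eventually.of_forall hb)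
  have hr1 : p ≤ r.toReal := by
    rw [← ENNReal.ofReal_le_ofReal_iff ENNReal.toReal_nonneg, ENNReal.ofReal_toReal hr']
    exact hr
  have hr0 : r ≠ 0 := by
    intro h0
    rw [h0, ENNReal.toReal_zero] at hr1
    linarith
  rw [eLpNorm_eq_lintegral_rpow_enorm_toReal hr0 hr']
  have hR : 0 < r.toReal := by linarith
  have h1 : ∫⁻ ξ, ‖u ξ‖ₑ ^ r.toReal ∂μ ≤ ENNReal.ofReal (δ ^ r.toReal) := by
    calc ∫⁻ ξ, ‖u ξ‖ₑ ^ r.toReal ∂μ
        ≤ ∫⁻ ξ, ENNReal.ofReal (δ ^ (r.toReal - p)) * ‖u ξ‖ₑ ^ p ∂μ := by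
          refine lintegral_mono fun ξ => ?_
          simp only
          rw [enorm_rpow _ hR.le, enorm_rpow _ hp.le, ← ENNReal.ofReal_mul (by positivity)]
          apply ENNReal.ofReal_le_ofReal
          calc ‖u ξ‖ ^ r.toReal = ‖u ξ‖ ^ (r.toReal - p) * ‖u ξ‖ ^ p := by
                rw [← Real.rpow_add_of_nonneg (norm_nonneg _) (by linarith) hp.le]
                congr 1; ring
            _ ≤ _ := by
                refine mul_le_mul_of_nonneg_right ?_ (by positivity)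
                exact Real.rpow_le_rpow (norm_nonneg _) (hb ξ) (by linarith)
      _ = ENNReal.ofReal (δ ^ (r.toReal - p)) * ∫⁻ ξ, ‖u ξ‖ₑ ^ p ∂μ :=
          lintegral_const_mul' _ _ ENNReal.ofReal_ne_top
      _ ≤ ENNReal.ofReal (δ ^ (r.toReal - p)) * ENNReal.ofReal (δ ^ p) := by gcongr
      _ = _ := by
          rw [← ENNReal.ofReal_mul (by positivity), ← Real.rpow_add hδ]
          congr 2; ring
  calc (∫⁻ ξ, ‖u ξ‖ₑ ^ r.toReal ∂μ) ^ (1 / r.toReal)
      ≤ (ENNReal.ofReal (δ ^ r.toReal)) ^ (1 / r.toReal) :=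
        ENNReal.rpow_le_rpow h1 (by positivity)
    _ = _ := by
        rw [ENNReal.ofReal_rpow_of_nonneg (by positivity) (by positivity),
          ← Real.rpow_mul hδ.le, mul_one_div_cancel hR.ne', Real.rpow_one]

theorem one_step (n : ℕ) (hn : 2 ≤ n) : ∃ C : ℝ, 0 < C ∧ ∀ κ : ℝ, 0 < κ →
    ∀ p : ℝ, 2 * ((n : ℝ) + 1) / n < p →
    p ≤ 4 → ∀ M : ℝ, 0 < M → ∀ φ : (Fin n → ℝ) → ℂ, Measurable φ → (∀ x, ‖φ x‖ ≤ M) →
    ∀ ε : ℝ, 0 < ε → ε ≤ 1 → ∀ ρ : ℝ, 0 < ρ → ∀ δ : ℝ, 0 < δ →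
    ∃ h : (Fin n → ℝ) → ℂ, Continuous h ∧ (∀ x, ‖h x‖ ≤ C * M / ε) ∧
      (∀ x : Fin n → ℝ, (∃ j, 1 - κ / 2 ≤ |x j|) → h x = 0) ∧
      mu n {x | x ∈ Qk n κ ∧ ρ < ‖φ x - h x‖} ≤ ENNReal.ofReal ε ∧
      (∀ r : ℝ, 2 * ((n : ℝ) + 1) / n < r → MemLp (EE h) (ENNReal.ofReal r)) ∧
      ∀ r : ℝ≥0∞, ENNReal.ofReal p ≤ r → eLpNorm (EE h) r volume ≤ ENNReal.ofReal δ := by
  have hn' : 0 < n := by omega
  set j : Fin n := ⟨0, hn'⟩ with hj
  set S : ℝ := 2 ^ n with hS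
  have hS0 : 0 < S := by positivity
  refine ⟨2 * (8 * S + 3), by positivity, ?_⟩
  intro κ hκ p hp1 hp2 M hM φ hφ hb ε hε hε1 ρ hρ δ hδ
  have hn0 : (0 : ℝ) < n := by positivity
  have hpc : 2 < 2 * ((n : ℝ) + 1) / n := by
    rw [lt_div_iff₀ hn0]; linarith
  obtain ⟨P, hP, hc1, hc3, hc2⟩ := approx hn j hκ φ hφ M hM hb ρ hρ (ε / 2) (by positivity)
  set m : ℕ := ⌈8 * S / ε⌉₊ + 2 with hm
  have hm2 : 2 ≤ m := by omega
  have hmR : (2 : ℝ) ≤ m := by exact_mod_cast hm2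
  have hm3 : 8 * S / ε ≤ m := by
    rw [hm]; push_cast
    linarith [Nat.le_ceil (8 * S / ε)]
  have hm4 : (m : ℝ) ≤ (8 * S + 3) / ε := by
    rw [hm]; push_cast
    have h1 := (Nat.ceil_lt_add_one (show 0 ≤ 8 * S / ε by positivity)).le
    have h2 : (3 : ℝ) ≤ 3 / ε := by
      rw [le_div_iff₀ hε]; linarith
    rw [add_div]
    linarith
  set B : ℝ := 2 * M * m with hB
  have hB0 : 0 < B := by positivity
  set Λ : ℝ := 4 * Real.pi * n * (B * S) with hΛ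
  have hΛ0 : 0 < Λ := by positivity
  -- the size of the norm
  set s : ℝ := δ with hs'
  set V : ℝ := (s / 2) ^ p * ((2 * (s / (2 * Λ))) ^ n * (2 * (s / (2 * Λ)))) with hV
  have hV0 : 0 < V := by positivity
  obtain ⟨F, hF, hFb, hF1, hF2⟩ := pick j p hp1 hp2 hP (B := 2 * M) (by positivity)
    (fun ξ _ => hc1 ξ) m hm2
    (min (δ ^ p) (V / 2)) (lt_min (by positivity) (by positivity)) (ε / 4) (by positivity)
  set h : (Fin n → ℝ) → ℂ := fun ξ => P ξ * F (ξ j) with hh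
  have hcont : Continuous h := hP.1.mul (hF.comp (continuous_apply j))
  have hbd : ∀ x, ‖h x‖ ≤ B := by
    intro x
    simp only [hh]
    rw [norm_mul]
    exact mul_le_mul (hc1 _) (hFb _) (norm_nonneg _) (by positivity)
  have hint := int_of_bdd hcont.measurable hbd
  have hr : ∀ r : ℝ, 2 * ((n : ℝ) + 1) / n < r → MemLp (EE h) (ENNReal.ofReal r) := by
    intro r hr
    obtain ⟨C, hC, h⟩ := hP.bound r hr
    exact ⟨(EE_continuous hint).aestronglyMeasurable,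
      lt_of_le_of_lt (h F m (by linarith) hF.measurable hFb) ENNReal.ofReal_lt_top⟩
  refine ⟨h, hcont, ?_, ?_, ?_, hr, ?_⟩
  · intro x
    refine (hbd x).trans ?_
    rw [hB]
    calc 2 * M * m ≤ 2 * M * ((8 * S + 3) / ε) := by gcongr
      _ = _ := by ring
  · intro x hx
    simp only [hh]
    rw [hc3 x hx, zero_mul]
  · have hsub : {x | x ∈ Qk n κ ∧ ρ < ‖φ x - h x‖} ⊆ {x | x ∈ Qk n κ ∧ ρ < ‖φ x - P x‖} ∪
        {x | F (x j) ≠ 1} := by
      intro x hx'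
      rw [mem_union, mem_ofPred_eq, mem_ofPred_eq]
      rw [mem_ofPred_eq] at hx'
      simp only [hh] at hx'
      by_cases h1 : F (x j) = 1
      · left
        rw [h1, mul_one] at hx'
        exact hx'
      · right; exact h1
    refine (measure_mono hsub).trans ((measure_union_le _ _).trans ?_)
    have h3 : ENNReal.ofReal (2 * 2 ^ n / m + ε / 4) ≤ ENNReal.ofReal (ε / 2) := by
      apply ENNReal.ofReal_le_ofReal
      rw [← hS]
      have h4 : 2 * S / m ≤ ε / 4 := by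
        rw [div_le_div_iff₀ (by positivity) (by positivity)]
        rw [div_le_iff₀ hε] at hm3
        linarith
      linarith
    calc _ ≤ ENNReal.ofReal (ε / 2) + ENNReal.ofReal (ε / 2) := add_le_add hc2 (hF1.trans h3)
      _ = ENNReal.ofReal ε := by
        rw [← ENNReal.ofReal_add (by positivity) (by positivity)]
        congr 1; ring
  · have hlip : ∀ ξ ξ', ‖EE h ξ - EE h ξ'‖ ≤ Λ * ‖ξ - ξ'‖ := by
      intro ξ ξ'
      refine (EE_lip hint ξ ξ').trans ?_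
      have h1 := int_norm_le hcont.measurable hbd
      rw [mu_real, ← hS] at h1
      rw [hΛ]
      gcongr
    have hsup := sup_small (EE h) Λ hΛ0 hlip p (by linarith) s hδ (by
      refine lt_of_le_of_lt hF2 ?_
      rw [← ENNReal.ofReal_mul (by positivity), ← hV]
      rw [ENNReal.ofReal_lt_ofReal_iff hV0]
      refine lt_of_le_of_lt (min_le_right _ _) ?_
      linarith)
    intro r hr
    exact lp_all _ p (by linarith) δ hδ hsup
      (hF2.trans (ENNReal.ofReal_le_ofReal (min_le_left _ _))) r hr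

end Pool.Agent.H197.CT
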