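import Mathlib
import Pool.Agent.H197.CT.Step
set_option autoImplicit false

/-! The correction theorem. -/

namespace Pool.Agent.H197.CT

open MeasureTheory Set Metric Complex Filter Topology
open scoped ENNReal NNReal
open Pool.Agent.TH277.HT (ch ch_norm ch_enorm ch_add ch_cont EE EE_le EE_meas cube_vol)

/-- the residual -/
noncomputable def resid {n : ℕ} (H : ℕ → ((Fin n → ℝ) → ℂ) → ((Fin n → ℝ) → ℂ))
    (M : ℝ) (φ : (Fin n → ℝ) → ℂ) : ℕ → ((Fin n → ℝ) → ℂ)
  | 0 => φ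
  | k + 1 => fun x => if ‖resid H M φ k x - H k (resid H M φ k) x‖ ≤ M / 4 ^ (k + 1) then
      resid H M φ k x - H k (resid H M φ k) x else 0

theorem compl_meas (n : ℕ) {κ : ℝ} (hκ : 0 < κ) :
    mu n (Qk n κ)ᶜ ≤ ENNReal.ofReal (n * 2 ^ n * κ) := by
  rcases Nat.eq_zero_or_pos n with rfl | hn
  · have : (Qk 0 κ)ᶜ = ∅ := by
      ext ξ
      simp [Qk]
    rw [this]
    simp
  have h2n : (2 : ℝ) ^ n = 2 ^ (n - 1) * 2 := by
    conv_lhs => rw [show n = (n - 1) + 1 by omega, pow_succ]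
  have hsub : ∀ᵐ ξ ∂(mu n), ξ ∈ (Qk n κ)ᶜ → ξ ∈ ⋃ j ∈ (Finset.univ : Finset (Fin n)),
      ({ξ : Fin n → ℝ | ξ j ∈ Icc (-1) (-1 + κ)} ∪ {ξ : Fin n → ℝ | ξ j ∈ Icc (1 - κ) 1}) := by
    refine mu_ae fun ξ hξ h => ?_
    have h1 : ∃ j, 1 - κ < |ξ j| := by
      by_contra hc
      push Not at hc
      exact h hc
    obtain ⟨j, hj⟩ := h1
    simp only [mem_iUnion, Finset.mem_univ, exists_true_left, mem_union, mem_ofPred_eq]
    refine ⟨j, ?_⟩
    rcases lt_abs.1 hj with h2 | h2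
    · exact Or.inr ⟨h2.le, hξ.2 j⟩
    · exact Or.inl ⟨hξ.1 j, by linarith⟩
  have hmm : mu n (Qk n κ)ᶜ ≤ mu n (⋃ j ∈ (Finset.univ : Finset (Fin n)),
      ({ξ : Fin n → ℝ | ξ j ∈ Icc (-1) (-1 + κ)} ∪ {ξ : Fin n → ℝ | ξ j ∈ Icc (1 - κ) 1})) :=
    measure_mono_ae hsub
  refine hmm.trans ((measure_biUnion_finset_le _ _).trans ?_)
  calc ∑ j : Fin n, mu n ({ξ : Fin n → ℝ | ξ j ∈ Icc (-1) (-1 + κ)} ∪
        {ξ : Fin n → ℝ | ξ j ∈ Icc (1 - κ) 1})
      ≤ ∑ _j : Fin n, ENNReal.ofReal (2 ^ n * κ) := by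
        refine Finset.sum_le_sum fun j _ => (measure_union_le _ _).trans ?_
        calc _ ≤ ENNReal.ofReal (κ * 2 ^ (n - 1)) + ENNReal.ofReal (κ * 2 ^ (n - 1)) := by
              refine add_le_add ?_ ?_
              · refine (slab_meas j _ _ (by linarith)).trans (le_of_eq ?_)
                congr 1; ring
              · refine (slab_meas j _ _ (by linarith)).trans (le_of_eq ?_)
                congr 1; ring
          _ = ENNReal.ofReal (2 ^ n * κ) := by
              rw [← ENNReal.ofReal_add (by positivity) (by positivity), h2n]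
              congr 1; ring
    _ = ENNReal.ofReal (n * 2 ^ n * κ) := by
        rw [Finset.sum_const, Finset.card_univ, Fintype.card_fin, nsmul_eq_mul,
          ← ENNReal.ofReal_natCast, ← ENNReal.ofReal_mul (by positivity)]
        congr 1
        ring

theorem correction (n : ℕ) (hn : 2 ≤ n) : ∃ C : ℝ, 0 < C ∧
    ∀ g : (Fin n → ℝ) → ℂ, Measurable g → ∀ M : ℝ, 0 < M → ∀ ε : ℝ, 0 < ε → ε ≤ 1 →
    ∀ p₀ : ℝ, 2 * ((n : ℝ) + 1) / n < p₀ → ∀ η : ℝ, 0 < η →
    ∃ h : (Fin n → ℝ) → ℂ, Continuous h ∧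
      (∃ r : ℝ, r < 1 ∧ ∀ ξ : Fin n → ℝ, h ξ ≠ 0 → ∀ j, |ξ j| ≤ r) ∧
      (∀ x, ‖h x‖ ≤ C * M / ε) ∧
      mu n {x | h x ≠ g x} ≤ ENNReal.ofReal ε + mu n {x | M < ‖g x‖} ∧
      (∀ p : ℝ, 2 * ((n : ℝ) + 1) / n < p → MemLp (EE h) (ENNReal.ofReal p)) ∧
      ∀ r : ℝ≥0∞, ENNReal.ofReal p₀ ≤ r → eLpNorm (EE h) r volume ≤ ENNReal.ofReal η := by
  obtain ⟨C, hC, hstep⟩ := one_step n hn
  refine ⟨8 * C, by positivity, ?_⟩
  intro g hg M hM ε hε hε1 p₀ hp₀ η hη
  have hn2 : (2 : ℝ) ≤ n := by exact_mod_cast hn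
  have hn0 : (0 : ℝ) < n := by linarith
  set κ : ℝ := ε / (2 * (n * 2 ^ n)) with hκ
  have hκ0 : 0 < κ := by positivity
  specialize hstep κ hκ0
  set pc : ℝ := 2 * ((n : ℝ) + 1) / n with hpc
  have hpc2 : 2 < pc := by
    rw [hpc, lt_div_iff₀ hn0]; linarith
  have hpc3 : pc ≤ 3 := by
    rw [hpc, div_le_iff₀ hn0]; linarith
  set P : ℝ := min p₀ 4 with hP
  have hP1 : pc < P := lt_min hp₀ (by linarith)
  set pk : ℕ → ℝ := fun k => pc + (P - pc) / 2 ^ k with hpk
  have hpk1 : ∀ k, pc < pk k := by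
    intro k
    have : 0 < (P - pc) / 2 ^ k := div_pos (by linarith) (by positivity)
    simp only [hpk]; linarith
  have hpk2 : ∀ k, pk k ≤ P := by
    intro k
    have : (P - pc) / 2 ^ k ≤ P - pc := div_le_self (by linarith) (one_le_pow₀ (by norm_num))
    simp only [hpk]; linarith
  -- the steps
  have hex : ∀ (k : ℕ) (ψ : (Fin n → ℝ) → ℂ), ∃ h : (Fin n → ℝ) → ℂ,
      Measurable ψ → (∀ x, ‖ψ x‖ ≤ M / 4 ^ k) →
      Continuous h ∧ (∀ x, ‖h x‖ ≤ C * (M / 4 ^ k) / (ε / 2 ^ (k + 2))) ∧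
      (∀ x : Fin n → ℝ, (∃ j, 1 - κ / 2 ≤ |x j|) → h x = 0) ∧
      mu n {x | x ∈ Qk n κ ∧ M / 4 ^ (k + 1) < ‖ψ x - h x‖} ≤ ENNReal.ofReal (ε / 2 ^ (k + 2)) ∧
      (∀ r : ℝ, pc < r → MemLp (EE h) (ENNReal.ofReal r)) ∧
      ∀ r : ℝ≥0∞, ENNReal.ofReal (pk k) ≤ r →
        eLpNorm (EE h) r volume ≤ ENNReal.ofReal (η / 2 ^ (k + 1)) := by
    intro k ψ
    by_cases hψ : Measurable ψ ∧ ∀ x, ‖ψ x‖ ≤ M / 4 ^ k
    · obtain ⟨h, hh⟩ := hstep (pk k) (hpk1 k) ((hpk2 k).trans (min_le_right _ _)) (M / 4 ^ k)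
        (by positivity) ψ hψ.1 hψ.2 (ε / 2 ^ (k + 2)) (by positivity)
        ((div_le_self hε.le (one_le_pow₀ (by norm_num))).trans hε1) (M / 4 ^ (k + 1))
        (by positivity) (η / 2 ^ (k + 1)) (by positivity)
      exact ⟨h, fun _ _ => hh⟩
    · exact ⟨0, fun h1 h2 => absurd ⟨h1, h2⟩ hψ⟩
  choose H hH using hex
  set φ : (Fin n → ℝ) → ℂ := fun x => if ‖g x‖ ≤ M then g x else 0 with hφ
  have hφm : Measurable φ := Measurable.ite (measurableSet_le hg.norm measurable_const) hg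
    measurable_const
  have hφb : ∀ x, ‖φ x‖ ≤ M := by
    intro x
    simp only [hφ]
    split_ifs with h
    · exact h
    · rw [norm_zero]; exact hM.le
  set ψ : ℕ → ((Fin n → ℝ) → ℂ) := resid H M φ with hψ
  have hinv : ∀ k, Measurable (ψ k) ∧ ∀ x, ‖ψ k x‖ ≤ M / 4 ^ k := by
    intro k
    induction k with
    | zero =>
      refine ⟨hφm, fun x => ?_⟩
      rw [pow_zero, div_one]
      exact hφb x
    | succ k ih =>
      have h1 := (hH k (ψ k) ih.1 ih.2).1.measurable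
      refine ⟨?_, fun x => ?_⟩
      · exact Measurable.ite (measurableSet_le (ih.1.sub h1).norm measurable_const)
          (ih.1.sub h1) measurable_const
      · change ‖if ‖ψ k x - H k (ψ k) x‖ ≤ M / 4 ^ (k + 1) then
          ψ k x - H k (ψ k) x else 0‖ ≤ _
        split_ifs with h
        · exact h
        · rw [norm_zero]; positivity
  set hk : ℕ → ((Fin n → ℝ) → ℂ) := fun k => H k (ψ k) with hhk
  have hkp := fun k => hH k (ψ k) (hinv k).1 (hinv k).2
  have hkc : ∀ k, Continuous (hk k) := fun k => (hkp k).1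
  have hkm : ∀ k, Measurable (hk k) := fun k => (hkc k).measurable
  have hkb : ∀ k x, ‖hk k x‖ ≤ (8 * C * M / ε) / 2 / 2 ^ k := by
    intro k x
    refine ((hkp k).2.1 x).trans (le_of_eq ?_)
    have h4 : (4 : ℝ) ^ k = 2 ^ k * 2 ^ k := by rw [← mul_pow]; norm_num
    rw [h4, pow_add]
    field_simp
    norm_num
  have hgeo : HasSum (fun k : ℕ => (8 * C * M / ε) / 2 / 2 ^ k) (8 * C * M / ε) :=
    hasSum_geometric_two' _
  have hsum : ∀ x, Summable fun k => hk k x := fun x =>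
    Summable.of_norm_bounded hgeo.summable fun k => hkb k x
  set h : (Fin n → ℝ) → ℂ := fun x => ∑' k, hk k x with hh
  have hhc : Continuous h := continuous_tsum hkc hgeo.summable hkb
  have hhm : Measurable h := hhc.measurable
  have hhb : ∀ x, ‖h x‖ ≤ 8 * C * M / ε := by
    intro x
    exact tsum_of_norm_bounded hgeo fun k => hkb k x
  have hki : ∀ k, Integrable (hk k) (mu n) := fun k => int_of_bdd (hkm k) (hkb k)
  have hhi : Integrable h (mu n) := int_of_bdd hhm hhb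
  -- convergence of the transforms
  have hlim : ∀ y, Tendsto (fun K => ∑ k ∈ Finset.range K, EE (hk k) y) atTop (𝓝 (EE h y)) := by
    intro y
    have h1 : HasSum (fun k => EE (hk k) y) (EE h y) := by
      simp_rw [EE_def]
      have h2 := hasSum_integral_of_summable_integral_norm
        (μ := mu n) (F := fun k ξ => ch (ph y ξ) * hk k ξ) (fun k => ker_int (hki k) y) ?_
      · have h3 : (fun ξ : Fin n → ℝ => ch (ph y ξ) * h ξ) =
            fun ξ : Fin n → ℝ => ∑' k, ch (ph y ξ) * hk k ξ := by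
          funext ξ
          simp only [hh]
          rw [tsum_mul_left]
        rw [h3]
        exact h2
      · refine Summable.of_nonneg_of_le (fun k => integral_nonneg fun x => norm_nonneg _)
          (fun k => ?_) (hgeo.summable.mul_right ((mu n).real univ))
        calc ∫ ξ, ‖ch (ph y ξ) * hk k ξ‖ ∂(mu n)
            = ∫ ξ, ‖hk k ξ‖ ∂(mu n) := by
              refine integral_congr_ae (Eventually.of_forall fun x => ?_)
              simp only [norm_mul]
              rw [ch_norm, one_mul]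
          _ ≤ _ := int_norm_le (hkm k) (hkb k)
    exact h1.tendsto_sum_nat
  have hcont : ∀ k, Continuous (EE (hk k)) := fun k => EE_continuous (hki k)
  have hfatou : ∀ (r B : ℝ≥0∞) (K0 : ℕ), (∀ K, K0 ≤ K →
      eLpNorm (fun y => ∑ k ∈ Finset.range K, EE (hk k) y) r volume ≤ B) →
      eLpNorm (EE h) r volume ≤ B := by
    intro r B K0 hB
    have h1 := Lp.eLpNorm_lim_le_liminf_eLpNorm (p := r)
      (μ := (volume : Measure ((Fin n → ℝ) × ℝ)))
      (f := fun K y => ∑ k ∈ Finset.range K, EE (hk k) y)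
      (fun K => (continuous_finsetSum _ fun k _ => hcont k).aestronglyMeasurable) (EE h)
      (Eventually.of_forall hlim)
    refine h1.trans ?_
    refine liminf_le_of_frequently_le' ?_
    exact (eventually_atTop.2 ⟨K0, hB⟩).frequently
  have hgeoη : HasSum (fun k : ℕ => η / 2 / 2 ^ k) η := hasSum_geometric_two' _
  have hpart : ∀ (s : Finset ℕ), ∑ k ∈ s, ENNReal.ofReal (η / 2 ^ (k + 1)) ≤
      ENNReal.ofReal η := by
    intro s
    rw [← ENNReal.ofReal_sum_of_nonneg fun _ _ => by positivity]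
    apply ENNReal.ofReal_le_ofReal
    have h1 : ∀ k : ℕ, η / 2 ^ (k + 1) = η / 2 / 2 ^ k := by
      intro k; rw [pow_succ]; field_simp
    rw [Finset.sum_congr rfl fun k _ => h1 k]
    exact sum_le_hasSum s (fun k _ => by positivity) hgeoη
  refine ⟨h, hhc, ?_, hhb, ?_, ?_, ?_⟩
  · refine ⟨1 - κ / 2, by linarith, fun ξ hξ j => ?_⟩
    by_contra hc
    push Not at hc
    apply hξ
    simp only [hh]
    have h1 : ∀ k, hk k ξ = 0 := fun k => (hkp k).2.2.1 ξ ⟨j, hc.le⟩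
    simp only [h1, tsum_zero]
  · -- the exceptional set
    have hsub : {x | h x ≠ g x} ⊆ ((Qk n κ)ᶜ ∪
        (⋃ k, {x | x ∈ Qk n κ ∧ M / 4 ^ (k + 1) < ‖ψ k x - hk k x‖})) ∪
        {x | M < ‖g x‖} := by
      intro x hx
      by_contra hc
      rw [mem_union, not_or, mem_union, not_or, mem_iUnion, not_exists] at hc
      simp only [mem_ofPred_eq, not_lt, mem_compl_iff, not_not, not_and] at hc hx
      obtain ⟨⟨h0, h1⟩, h2⟩ := hc
      apply hx
      have h3 : ∀ k, ψ (k + 1) x = ψ k x - hk k x := by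
        intro k
        change (if ‖ψ k x - H k (ψ k) x‖ ≤ M / 4 ^ (k + 1) then
          ψ k x - H k (ψ k) x else 0) = _
        rw [if_pos (h1 k h0)]
      have h4 : ∀ K, ∑ k ∈ Finset.range K, hk k x = φ x - ψ K x := by
        intro K
        induction K with
        | zero => simp [hψ, resid]
        | succ K ih => rw [Finset.sum_range_succ, ih, h3 K]; ring
      have h5 : Tendsto (fun K => ψ K x) atTop (𝓝 0) := by
        rw [tendsto_zero_iff_norm_tendsto_zero]
        refine squeeze_zero (fun K => norm_nonneg _) (fun K => (hinv K).2 x) ?_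
        have h6 : Tendsto (fun K : ℕ => M * (1 / 4 : ℝ) ^ K) atTop (𝓝 (M * 0)) :=
          (tendsto_pow_atTop_nhds_zero_of_lt_one (by norm_num) (by norm_num)).const_mul M
        rw [mul_zero] at h6
        refine h6.congr fun K => ?_
        rw [one_div, inv_pow]; rfl
      have h7 : Tendsto (fun K => ∑ k ∈ Finset.range K, hk k x) atTop (𝓝 (φ x - 0)) := by
        simp_rw [h4]
        exact tendsto_const_nhds.sub h5
      have h8 : h x = φ x - 0 := tendsto_nhds_unique (hsum x).hasSum.tendsto_sum_nat h7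
      rw [h8, sub_zero, hφ]
      simp only
      rw [if_pos h2]
    refine (measure_mono hsub).trans ((measure_union_le _ _).trans ?_)
    gcongr
    refine (measure_union_le _ _).trans ?_
    have h9 : mu n (Qk n κ)ᶜ ≤ ENNReal.ofReal (ε / 2) := by
      refine (compl_meas n hκ0).trans (le_of_eq ?_)
      congr 1
      rw [hκ]
      field_simp
    have h10 : mu n (⋃ k, {x | x ∈ Qk n κ ∧ M / 4 ^ (k + 1) < ‖ψ k x - hk k x‖}) ≤
        ENNReal.ofReal (ε / 2) := by
      refine (measure_iUnion_le _).trans ?_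
      have h1 : ∀ k : ℕ, ε / 2 ^ (k + 2) = ε / 2 / 2 / 2 ^ k := by
        intro k; rw [pow_add]; field_simp
      calc ∑' k, mu n {x | x ∈ Qk n κ ∧ M / 4 ^ (k + 1) < ‖ψ k x - hk k x‖}
          ≤ ∑' k : ℕ, ENNReal.ofReal (ε / 2 / 2 / 2 ^ k) :=
            ENNReal.tsum_le_tsum fun k => by
              rw [← h1 k]; exact (hkp k).2.2.2.1
        _ = ENNReal.ofReal (ε / 2) := by
            rw [← ENNReal.ofReal_tsum_of_nonneg (fun k => by positivity)
              (hasSum_geometric_two' (ε / 2)).summable, (hasSum_geometric_two' (ε / 2)).tsum_eq]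
    calc _ ≤ ENNReal.ofReal (ε / 2) + ENNReal.ofReal (ε / 2) := add_le_add h9 h10
      _ = ENNReal.ofReal ε := by
        rw [← ENNReal.ofReal_add (by positivity) (by positivity)]
        congr 1; ring
  · intro p hp
    -- a K0 with pk K0 ≤ p
    obtain ⟨K0, hK0⟩ : ∃ K0, ∀ k, K0 ≤ k → pk k ≤ p := by
      obtain ⟨K0, hK0⟩ := exists_pow_lt_of_lt_one (show 0 < (p - pc) / (P - pc) from
        div_pos (by linarith) (by linarith)) (show (1 / 2 : ℝ) < 1 by norm_num)
      refine ⟨K0, fun k hk => ?_⟩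
      have h1 : (1 / 2 : ℝ) ^ k ≤ (1 / 2) ^ K0 :=
        pow_le_pow_of_le_one (by norm_num) (by norm_num) hk
      have h2 : (1 / 2 : ℝ) ^ k < (p - pc) / (P - pc) := lt_of_le_of_lt h1 hK0
      rw [lt_div_iff₀ (by linarith)] at h2
      simp only [hpk]
      rw [one_div, inv_pow, inv_mul_eq_div] at h2
      linarith
    have hr1 : 1 ≤ ENNReal.ofReal p := by
      rw [← ENNReal.ofReal_one]; exact ENNReal.ofReal_le_ofReal (by linarith)
    refine ⟨(EE_continuous hhi).aestronglyMeasurable, ?_⟩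
    set B0 : ℝ≥0∞ := ∑ k ∈ Finset.range K0, eLpNorm (EE (hk k)) (ENNReal.ofReal p) volume with hB0
    have hB0' : B0 < ⊤ := by
      rw [hB0, ENNReal.sum_lt_top]
      exact fun k _ => ((hkp k).2.2.2.2.1 p hp).2
    refine lt_of_le_of_lt (hfatou (ENNReal.ofReal p) (B0 + ENNReal.ofReal η) K0 fun K hK => ?_)
      (ENNReal.add_lt_top.2 ⟨hB0', ENNReal.ofReal_lt_top⟩)
    have h1 := eLpNorm_sum_le (μ := (volume : Measure ((Fin n → ℝ) × ℝ))) (s := Finset.range K)
      (f := fun k => EE (hk k)) (fun k _ => (hcont k).aestronglyMeasurable) hr1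
    have h2 : (∑ k ∈ Finset.range K, EE (hk k)) =
        fun y => ∑ k ∈ Finset.range K, EE (hk k) y := by
      funext y; rw [Finset.sum_apply]
    rw [h2] at h1
    refine h1.trans ?_
    rw [← Finset.sum_range_add_sum_Ico _ hK]
    refine add_le_add le_rfl ?_
    refine le_trans (Finset.sum_le_sum fun k hk' => ?_) (hpart (Finset.Ico K0 K))
    refine (hkp k).2.2.2.2.2 _ (ENNReal.ofReal_le_ofReal ?_)
    exact hK0 k (Finset.mem_Ico.1 hk').1
  · intro r hr
    have hr1 : 1 ≤ r := by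
      refine le_trans ?_ hr
      rw [← ENNReal.ofReal_one]; exact ENNReal.ofReal_le_ofReal (by linarith)
    refine hfatou r (ENNReal.ofReal η) 0 fun K _ => ?_
    have h1 := eLpNorm_sum_le (μ := (volume : Measure ((Fin n → ℝ) × ℝ))) (s := Finset.range K)
      (f := fun k => EE (hk k)) (fun k _ => (hcont k).aestronglyMeasurable) hr1
    have h2 : (∑ k ∈ Finset.range K, EE (hk k)) =
        fun y => ∑ k ∈ Finset.range K, EE (hk k) y := by
      funext y; rw [Finset.sum_apply]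
    rw [h2] at h1
    refine h1.trans (le_trans (Finset.sum_le_sum fun k _ => ?_) (hpart (Finset.range K)))
    refine (hkp k).2.2.2.2.2 r ?_
    refine le_trans (ENNReal.ofReal_le_ofReal ?_) hr
    exact (hpk2 k).trans (min_le_left _ _)

/-- The size of the corrected function cannot be smaller. -/
theorem sharp (n : ℕ) (hn : 2 ≤ n) (ε B : ℝ) (hε : 0 < ε) (hε1 : ε ≤ 1) (hB : 0 ≤ B)
    (h : (Fin n → ℝ) → ℂ)
    (hm : Measurable h) (hb : ∀ ξ, ‖h ξ‖ ≤ B) (he : mu n {ξ | h ξ ≠ 1} ≤ ENNReal.ofReal ε)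
    (h0 : ‖EE h 0‖ ≤ 1) : 1 / ε ≤ B := by
  have h1 : EE h 0 = ∫ ξ, h ξ ∂(mu n) := by
    rw [EE_def]
    refine integral_congr_ae (Eventually.of_forall fun ξ => ?_)
    have : ph (0 : (Fin n → ℝ) × ℝ) ξ = 0 := by simp [ph]
    simp only [this]
    rw [show ch 0 = 1 by simp [ch], one_mul]
  have hi := int_of_bdd hm hb
  set A : Set (Fin n → ℝ) := {ξ | h ξ ≠ 1} with hA
  have hAm : MeasurableSet A := (measurableSet_eq_fun hm measurable_const).compl
  have h2 : ∫ ξ, h ξ ∂(mu n) = ((2 : ℝ) ^ n : ℝ) + ∫ ξ, A.indicator (fun ξ => h ξ - 1) ξ ∂(mu n) := by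
    have h3 : ∀ ξ, h ξ = 1 + A.indicator (fun ξ => h ξ - 1) ξ := by
      intro ξ
      by_cases hx : ξ ∈ A
      · rw [indicator_of_mem hx]; ring
      · rw [indicator_of_notMem hx, add_zero]
        by_contra hc
        exact hx hc
    have h4 : Integrable (fun ξ => A.indicator (fun ξ => h ξ - 1) ξ) (mu n) :=
      (hi.sub (integrable_const 1)).indicator hAm
    calc ∫ ξ, h ξ ∂(mu n) = ∫ ξ, ((1 : ℂ) + A.indicator (fun ξ => h ξ - 1) ξ) ∂(mu n) :=
          integral_congr_ae (Eventually.of_forall h3)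
      _ = ∫ _ξ, (1 : ℂ) ∂(mu n) + ∫ ξ, A.indicator (fun ξ => h ξ - 1) ξ ∂(mu n) :=
          integral_add (integrable_const _) h4
      _ = _ := by
          rw [integral_const, mu_real]
          simp
  have h5 : ‖∫ ξ, A.indicator (fun ξ => h ξ - 1) ξ ∂(mu n)‖ ≤ (B + 1) * ε := by
    rw [integral_indicator hAm]
    have h6 : ‖∫ ξ in A, (h ξ - 1) ∂(mu n)‖ ≤ (B + 1) * (mu n).real A := by
      apply norm_setIntegral_le_of_norm_le_const (measure_lt_top _ _)
      intro ξ _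
      calc ‖h ξ - 1‖ ≤ ‖h ξ‖ + ‖(1 : ℂ)‖ := norm_sub_le _ _
        _ ≤ B + 1 := by rw [norm_one]; linarith [hb ξ]
    refine h6.trans ?_
    have h7 : (mu n).real A ≤ ε := ENNReal.toReal_le_of_le_ofReal hε.le he
    gcongr
  have h8 : (2 : ℝ) ^ n ≤ 1 + (B + 1) * ε := by
    have h9 : ((2 : ℝ) ^ n : ℝ) = ‖(((2 : ℝ) ^ n : ℝ) : ℂ)‖ := by
      rw [Complex.norm_real, Real.norm_eq_abs, abs_of_nonneg (by positivity)]
    rw [h9]
    have h10 : (((2 : ℝ) ^ n : ℝ) : ℂ) = EE h 0 - ∫ ξ, A.indicator (fun ξ => h ξ - 1) ξ ∂(mu n) := by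
      rw [h1, h2]; ring
    rw [h10]
    refine (norm_sub_le _ _).trans ?_
    linarith
  have h11 : (4 : ℝ) ≤ 2 ^ n := by
    calc (4 : ℝ) = 2 ^ 2 := by norm_num
      _ ≤ 2 ^ n := pow_le_pow_right₀ (by norm_num) hn
  rw [div_le_iff₀ hε]
  nlinarith

end Pool.Agent.H197.CT
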